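import Pool.Agent.H88.ENT.B6
import Pool.Agent.H88.ENT.B10

/-!
MP_d9606f_gt, full answer, part (S4), invariance principle, abstract form (helper53).

`ZSys Ω P q κ`: a measure preserving map `σ` of the probability space `(Ω, P)`, a refining sequence of
finite partitions `X`, a digit `S0` with `q` values; `X.xi l ∘ σ` is a function of `S0` and of a
partition; the digits `S0 ∘ σ^[j]`, `j < k`, are uniformly distributed given the partitions;
a bounded fibre coordinate `ψ`; two points with the same digits and the same partition move apart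
at most by a factor `K` in one step, and by `a T w` in `T` steps up to a quadratic error, where
`a T ≤ exp (ε T)` with probability tending to one (zero exponents).

`ZSys.indep`: then the digit `S0` is independent of `(X.xi l, ψ)`.
-/

set_option autoImplicit false

namespace Pool.Agent.H53.IV

open H88.ENT MeasureTheory Filter Topology

noncomputable section

/-- The abstract system. -/
structure ZSys (Ω : Type) [MeasurableSpace Ω] (P : Measure Ω) (q : ℕ) (κ : Type) [Fintype κ] where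
  /-- the dynamics -/
  σ : Ω → Ω
  mp : MeasurePreserving σ P P
  /-- names of the base point -/
  X : Filt Ω
  /-- the digit -/
  S0 : Ω → Fin q
  mS0 : FM S0
  ada : ∀ l, ∃ l', ∀ w w', S0 w = S0 w' → X.xi l' w = X.xi l' w' →
    X.xi l (σ w) = X.xi l (σ w')
  uni : ∀ (k l : ℕ) (a : Fin k → Fin q) (c : X.I l),
    P.real (pre (fun j w => S0 (σ^[j] w)) k ⁻¹' {a} ∩ X.xi l ⁻¹' {c}) =
      P.real (X.xi l ⁻¹' {c}) / (q : ℝ) ^ k
  /-- the fibre coordinate -/
  ψ : Ω → κ → ℝ
  mψ : ∀ i, Measurable fun w => ψ w i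
  /-- a bound -/
  B : ℕ
  bψ : ∀ w i, |ψ w i| ≤ B
  /-- Lipschitz constant of one step -/
  K : ℝ
  hK : 1 ≤ K
  /-- the derivative along `T` steps -/
  a : ℕ → Ω → ℝ
  ma : ∀ T, Measurable (a T)
  near : ∀ T, ∃ l, ∀ w w', (∀ j < T, S0 (σ^[j] w) = S0 (σ^[j] w')) → X.xi l w = X.xi l w' →
      dist (ψ (σ^[T] w)) (ψ (σ^[T] w')) ≤ K ^ T * dist (ψ w) (ψ w') ∧
      (1 ≤ T → dist (ψ (σ^[T] w)) (ψ (σ^[T] w')) ≤
        a T w * dist (ψ w) (ψ w') + K ^ T * dist (ψ w) (ψ w') ^ 2)
  slow : ∀ ε : ℝ, 0 < ε → Tendsto (fun T : ℕ => P.real {w | Real.exp (ε * T) < a T w}) atTop (𝓝 0)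

variable {Ω : Type} [MeasurableSpace Ω] {P : Measure Ω} {q : ℕ} {κ : Type} [Fintype κ]

theorem xi_mono {X : Filt Ω} {l m : ℕ} (h : l ≤ m) {w w' : Ω} (hw : X.xi m w = X.xi m w') :
    X.xi l w = X.xi l w' := by
  obtain ⟨g, hg⟩ := X.fac_le h
  rw [hg w, hg w', hw]

theorem det_of_same {α β : Type*} [Nonempty α] {X : Filt Ω} {S : Ω → β} {T : Ω → α} (l : ℕ)
    (h : ∀ w w', S w = S w' → X.xi l w = X.xi l w' → T w = T w') : Det X S T := by
  have hf : Function.FactorsThrough T (fun w => (S w, X.xi l w)) := by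
    intro w w' hw
    simp only [Prod.mk.injEq] at hw
    exact h w w' hw.1 hw.2
  rw [Function.factorsThrough_iff] at hf
  obtain ⟨g, hg⟩ := hf
  exact ⟨l, g, fun w => congrFun hg w⟩

namespace ZSys

variable (E : ZSys Ω P q κ)

/-- The digit number `j`. -/
def S (j : ℕ) (w : Ω) : Fin q := E.S0 (E.σ^[j] w)

theorem mS (j : ℕ) : FM (E.S j) := E.mS0.comp_measurable (E.mp.measurable.iterate j)

theorem S_iter (i j : ℕ) (w : Ω) : E.S i (E.σ^[j] w) = E.S (j + i) w := by
  unfold S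
  rw [← Function.iterate_add_apply, Nat.add_comm]

theorem pre_eq {k : ℕ} {w w' : Ω} : pre E.S k w = pre E.S k w' ↔ ∀ i < k, E.S i w = E.S i w' := by
  constructor
  · intro h i hi
    exact congrFun h ⟨i, hi⟩
  · intro h
    funext i
    exact h i i.2

theorem same_iter (j l : ℕ) : ∃ l', ∀ w w', (∀ i < j, E.S i w = E.S i w') →
    E.X.xi l' w = E.X.xi l' w' → E.X.xi l (E.σ^[j] w) = E.X.xi l (E.σ^[j] w') := by
  induction j generalizing l with
  | zero => exact ⟨l, fun w w' _ h => h⟩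
  | succ j ih =>
    obtain ⟨l1, h1⟩ := E.ada l
    obtain ⟨l2, h2⟩ := ih l1
    refine ⟨l2, fun w w' hd hx => ?_⟩
    rw [Function.iterate_succ_apply', Function.iterate_succ_apply']
    exact h1 _ _ (hd j (Nat.lt_succ_self j)) (h2 w w' (fun i hi => hd i (by omega)) hx)

theorem near_iter (n : ℕ) : ∃ L, ∀ m r, m ≤ n → r ≤ n → ∀ w w', (∀ i < m + r, E.S i w = E.S i w') →
    E.X.xi L w = E.X.xi L w' →
      dist (E.ψ (E.σ^[m + r] w)) (E.ψ (E.σ^[m + r] w')) ≤
        E.K ^ r * dist (E.ψ (E.σ^[m] w)) (E.ψ (E.σ^[m] w')) ∧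
      (1 ≤ r → dist (E.ψ (E.σ^[m + r] w)) (E.ψ (E.σ^[m + r] w')) ≤
        E.a r (E.σ^[m] w) * dist (E.ψ (E.σ^[m] w)) (E.ψ (E.σ^[m] w')) +
          E.K ^ r * dist (E.ψ (E.σ^[m] w)) (E.ψ (E.σ^[m] w')) ^ 2) := by
  choose ln hln using E.near
  choose li hli using E.same_iter
  refine ⟨((Finset.range (n + 1)) ×ˢ (Finset.range (n + 1))).sup fun x => li x.1 (ln x.2), ?_⟩
  intro m r hm hr w w' hd hx
  have h1 : li m (ln r) ≤
      ((Finset.range (n + 1)) ×ˢ (Finset.range (n + 1))).sup fun x => li x.1 (ln x.2) :=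
    Finset.le_sup (f := fun x : ℕ × ℕ => li x.1 (ln x.2)) (b := (m, r))
      (Finset.mem_product.2 ⟨Finset.mem_range.2 (by simp; omega), Finset.mem_range.2 (by simp; omega)⟩)
  have h2 := hli m (ln r) w w' (fun i hi => hd i (by omega)) (xi_mono h1 hx)
  have h3 := hln r (E.σ^[m] w) (E.σ^[m] w') (fun j hj => by
    have := hd (m + j) (by omega)
    rw [← E.S_iter, ← E.S_iter] at this
    exact this) h2
  have e : ∀ v, E.σ^[r] (E.σ^[m] v) = E.σ^[m + r] v := fun v => by
    rw [← Function.iterate_add_apply, Nat.add_comm]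
  rw [e, e] at h3
  exact h3

/-- the path lemma -/
theorem path {R T : ℕ} (hR : 1 ≤ R) (hT : 1 ≤ T) (hs : (2 : ℝ) ^ R * Real.exp (-T) ≤ 1) :
    ∃ L, ∀ w w' m, m ≤ R * T → (∀ i < m, E.S i w = E.S i w') → E.X.xi L w = E.X.xi L w' →
      (∀ j < R, E.a T (E.σ^[j * T] w) ≤ Real.exp ((1 / R : ℝ) * T)) →
      dist (E.ψ w) (E.ψ w') ≤ Real.exp (-((Real.log E.K + 2) * T)) →
      dist (E.ψ (E.σ^[m] w)) (E.ψ (E.σ^[m] w')) ≤ 2 ^ R * Real.exp (-T) := by
  obtain ⟨L, hL⟩ := E.near_iter (R * T)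
  refine ⟨L, fun w w' m hm hd hx ha h0 => ?_⟩
  have hK0 : 0 < E.K := lt_of_lt_of_le one_pos E.hK
  have hRpos : (0 : ℝ) < R := by exact_mod_cast hR
  have hTpos : (0 : ℝ) < T := by exact_mod_cast hT
  set g : ℝ := Real.exp ((1 / R : ℝ) * T) with hg
  have hg1 : 1 ≤ g := Real.one_le_exp (by positivity)
  set ρ : ℝ := Real.exp (-((Real.log E.K + 2) * T)) with hρ
  have hρ0 : 0 < ρ := Real.exp_pos _
  have hKρ : E.K ^ T * ρ = Real.exp (-(2 * T)) := by
    have : E.K ^ T = Real.exp (Real.log E.K * T) := by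
      rw [mul_comm, Real.exp_nat_mul, Real.exp_log hK0]
    rw [this, hρ, ← Real.exp_add]
    congr 1
    ring
  have hgR : g ^ R = Real.exp T := by
    rw [hg, ← Real.exp_nat_mul]
    congr 1
    field_simp
  -- the key numerical bound
  have key : ∀ j ≤ R, E.K ^ T * ((2 * g) ^ j * ρ) ≤ 2 ^ R * Real.exp (-T) := by
    intro j hj
    have h1 : (2 * g) ^ j ≤ (2 * g) ^ R := pow_le_pow_right₀ (by linarith) hj
    calc E.K ^ T * ((2 * g) ^ j * ρ) = (2 * g) ^ j * (E.K ^ T * ρ) := by ring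
      _ ≤ (2 * g) ^ R * (E.K ^ T * ρ) := by
        apply mul_le_mul_of_nonneg_right h1
        positivity
      _ = 2 ^ R * (g ^ R * Real.exp (-(2 * T))) := by rw [hKρ, mul_pow]; ring
      _ = 2 ^ R * Real.exp (-T) := by
        rw [hgR, ← Real.exp_add]
        congr 2
        ring
  have step : ∀ j, j ≤ R → j * T ≤ m →
      dist (E.ψ (E.σ^[j * T] w)) (E.ψ (E.σ^[j * T] w')) ≤ (2 * g) ^ j * ρ := by
    intro j
    induction j with
    | zero =>
      intro _ _
      simpa using h0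
    | succ j ih =>
      intro hj hjm
      have hj' : j * T + T ≤ m := by
        have : (j + 1) * T = j * T + T := by ring
        omega
      have h1 := ih (by omega) (by omega)
      have h2 := (hL (j * T) T (by omega) (by nlinarith) w w' (fun i hi => hd i (by omega)) hx).2 hT
      have h3 : (j + 1) * T = j * T + T := by ring
      rw [h3]
      set z := dist (E.ψ (E.σ^[j * T] w)) (E.ψ (E.σ^[j * T] w')) with hz
      have hz0 : 0 ≤ z := dist_nonneg
      have h4 : E.K ^ T * z ≤ 1 := by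
        refine le_trans ?_ ((key j (by omega)).trans hs)
        exact mul_le_mul_of_nonneg_left h1 (by positivity)
      have h5 := ha j (by omega)
      calc dist (E.ψ (E.σ^[j * T + T] w)) (E.ψ (E.σ^[j * T + T] w'))
          ≤ E.a T (E.σ^[j * T] w) * z + E.K ^ T * z ^ 2 := h2
        _ ≤ g * z + 1 * z := by
          have h6 : E.a T (E.σ^[j * T] w) * z ≤ g * z := mul_le_mul_of_nonneg_right h5 hz0
          have h7 : E.K ^ T * z ^ 2 ≤ 1 * z := by
            have := mul_le_mul_of_nonneg_right h4 hz0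
            calc E.K ^ T * z ^ 2 = E.K ^ T * z * z := by ring
              _ ≤ 1 * z := this
          linarith
        _ ≤ 2 * g * z := by nlinarith
        _ ≤ 2 * g * ((2 * g) ^ j * ρ) := mul_le_mul_of_nonneg_left h1 (by positivity)
        _ = (2 * g) ^ (j + 1) * ρ := by ring
  have hdiv : m / T * T + m % T = m := Nat.div_add_mod' m T
  have hjR : m / T ≤ R := by
    have := Nat.div_le_div_right (c := T) hm
    rwa [Nat.mul_div_cancel _ (by omega)] at this
  have hr : m % T < T := Nat.mod_lt _ (by omega)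
  have h1 := step (m / T) hjR (by omega)
  have h2 := (hL (m / T * T) (m % T) (by omega) (by nlinarith) w w'
    (fun i hi => hd i (by omega)) hx).1
  rw [hdiv] at h2
  refine h2.trans (le_trans ?_ (key _ hjR))
  have h3 : E.K ^ (m % T) ≤ E.K ^ T := pow_le_pow_right₀ E.hK hr.le
  exact mul_le_mul h3 h1 dist_nonneg (by positivity)

/-! ### Cells -/

/-- the cell of mesh `1 / N` of the fibre coordinate -/
def cell (N : ℕ) (w : Ω) : κ → Fin (2 * E.B * N + 1) := fun i =>
  ⟨min ⌊(E.ψ w i + E.B) * N⌋₊ (2 * E.B * N), by omega⟩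

theorem cell_val (N : ℕ) (w : Ω) (i : κ) : (E.cell N w i : ℕ) = ⌊(E.ψ w i + E.B) * N⌋₊ := by
  unfold cell
  apply min_eq_left
  apply Nat.floor_le_of_le
  have h1 := (abs_le.1 (E.bψ w i)).2
  have h2 : (0 : ℝ) ≤ N := Nat.cast_nonneg N
  push_cast
  nlinarith

theorem m_cell (N : ℕ) : FM (E.cell N) := by
  refine FM.pi (A := fun _ : κ => Fin (2 * E.B * N + 1)) (R := fun i w => E.cell N w i) fun i => ?_
  intro c
  have h1 : Measurable fun w => ⌊(E.ψ w i + E.B) * N⌋₊ :=
    Nat.measurable_floor.comp (((E.mψ i).add_const _).mul_const _)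
  have h2 : (fun w => E.cell N w i) ⁻¹' {c} = (fun w => ⌊(E.ψ w i + E.B) * N⌋₊) ⁻¹' {(c : ℕ)} := by
    ext w
    simp only [Set.mem_preimage, Set.mem_singleton_iff, Fin.ext_iff, E.cell_val N w i]
  rw [h2]
  exact h1 (measurableSet_singleton _)

theorem cell_close {N : ℕ} (hN : 1 ≤ N) {w w' : Ω} (h : E.cell N w = E.cell N w') :
    dist (E.ψ w) (E.ψ w') ≤ 1 / N := by
  have hNpos : (0 : ℝ) < N := by exact_mod_cast hN
  rw [dist_pi_le_iff (by positivity)]
  intro i
  have h1 : ⌊(E.ψ w i + E.B) * N⌋₊ = ⌊(E.ψ w' i + E.B) * N⌋₊ := by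
    rw [← E.cell_val N w i, ← E.cell_val N w' i, h]
  have p1 : 0 ≤ (E.ψ w i + E.B) * N := by
    have := (abs_le.1 (E.bψ w i)).1
    exact mul_nonneg (by linarith) hNpos.le
  have p2 : 0 ≤ (E.ψ w' i + E.B) * N := by
    have := (abs_le.1 (E.bψ w' i)).1
    exact mul_nonneg (by linarith) hNpos.le
  have a1 := Nat.floor_le p1
  have a2 := Nat.lt_floor_add_one ((E.ψ w i + E.B) * N)
  have b1 := Nat.floor_le p2
  have b2 := Nat.lt_floor_add_one ((E.ψ w' i + E.B) * N)
  rw [h1] at a1 a2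
  rw [Real.dist_eq, le_div_iff₀ hNpos]
  have e : |E.ψ w i - E.ψ w' i| * N = |(E.ψ w i - E.ψ w' i) * N| := by
    rw [abs_mul, abs_of_pos hNpos]
  rw [e, abs_le]
  constructor <;> nlinarith

end ZSys

end

end Pool.Agent.H53.IV
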