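import Pool.Agent.H67.LX.Bas
import Pool.Agent.H23.DM.La1

/-!
MP_d9606f_gt, full answer, part (S4), invariance principle (helper53).  Facts on the suspension:
joint continuity of the root groups, constants for one step, multiplicativity of the cocycle.
-/

set_option autoImplicit false
set_option linter.unusedSectionVars false

open MeasureTheory Filter Matrix
open scoped Topology
open Pool.Agent.H73.PZ
open Pool.Agent.H23.DM
open Pool.Agent.H67.LX

namespace Pool.Agent.H53.IV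

noncomputable section

variable {p : ℕ} [Fact p.Prime] {n : ℕ} {Γ : Subgroup (SLn p n)} {F M : Type}
    [TopologicalSpace F] [CompactSpace F] [T2Space F] [SecondCountableTopology F]
    [MeasurableSpace F] [BorelSpace F] [MulAction (SLn p n) F]
    [TopologicalSpace M] [CompactSpace M] [T2Space M] [SecondCountableTopology M]
    [MeasurableSpace M] [BorelSpace M] [MulAction Γ M]
    [MulAction (SLn p n) (F × M)] [MulAction (AZ n) (F × M)]

theorem al_conj (B : Base Γ F) {τ k : SLn p n} (hk : k ∈ KM p n 2)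
    (hk' : τ * k * τ⁻¹ ∈ KM p n 2) (f : F) : B.al τ (k • f) = B.al τ f := by
  have h1 := B.al_mul τ k f
  rw [B.al_K k hk, mul_one] at h1
  have h2 := B.al_mul (τ * k * τ⁻¹) τ f
  rw [B.al_K _ hk', one_mul] at h2
  have h3 : τ * k * τ⁻¹ * τ = τ * k := by group
  rw [h3] at h2
  rw [← h1, h2]

theorem al_left (B : Base Γ F) {k : SLn p n} (hk : k ∈ KM p n 2) (g : SLn p n) (f : F) :
    B.al (k * g) f = B.al g f := by
  rw [B.al_mul, B.al_K k hk, one_mul]

theorem continuous_EE {i j : Fin n} (h : i ≠ j) : Continuous fun y : ℚ_[p] => (EE h y : SLn p n) := by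
  refine (Matrix.SpecialLinearGroup.isClosedEmbedding_val (n := Fin n)
    (R := ℚ_[p])).isEmbedding.isInducing.continuous_iff.2 ?_
  refine continuous_matrix fun k l => ?_
  have h1 : ∀ y : ℚ_[p], (Subtype.val ∘ fun y : ℚ_[p] => (EE h y : SLn p n)) y k l =
      (1 : Matrix (Fin n) (Fin n) ℚ_[p]) k l + if i = k ∧ j = l then y else 0 := by
    intro y
    change (EE h y : SLn p n).1 k l = _
    rw [Matrix.SpecialLinearGroup.transvection_coe, Matrix.add_apply, Matrix.single_apply]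
  simp only [h1]
  refine continuous_const.add ?_
  split_ifs
  · exact continuous_id
  · exact continuous_const

theorem continuous_EE_smul (S : Sus Γ F M) {i j : Fin n} (h : i ≠ j) :
    Continuous fun y : ℚ_[p] × (F × M) => (EE h y.1 : SLn p n) • y.2 := by
  have h0 : (fun y : ℚ_[p] × (F × M) => (EE h y.1 : SLn p n) • y.2) = fun y =>
      ((EE h y.1 : SLn p n) • y.2.1, ((EE h y.1 : SLn p n) • y.2).2) := by
    funext y
    exact Prod.ext (S.fst_smul _ _) rfl
  rw [h0]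
  refine Continuous.prodMk ?_ ?_
  · exact S.B.cont.comp (((continuous_EE h).comp continuous_fst).prodMk
      (continuous_fst.comp continuous_snd))
  · rw [continuous_iff_continuousAt]
    intro y0
    have h1 : ContinuousAt (fun y : ℚ_[p] × (F × M) => ((EE h y0.1 : SLn p n) • y.2).2) y0 :=
      (continuous_snd.comp ((S.continuous_smul (EE h y0.1)).comp continuous_snd)).continuousAt
    refine h1.congr ?_
    have hp : (0 : ℝ) < p := by exact_mod_cast (Fact.out : p.Prime).pos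
    have h2 : ∀ᶠ y : ℚ_[p] × (F × M) in 𝓝 y0, ‖y.1 - y0.1‖ < (p : ℝ) ^ (-(2 : ℤ)) := by
      have h3 : Continuous fun y : ℚ_[p] × (F × M) => ‖y.1 - y0.1‖ :=
        (continuous_fst.sub continuous_const).norm
      refine h3.continuousAt.eventually (gt_mem_nhds ?_)
      simp only [sub_self, norm_zero]
      positivity
    filter_upwards [h2] with y hy
    have h3 : (EE h (y.1 - y0.1) : SLn p n) ∈ KM p n 2 := EE_mem_KM h hy.le
    have h4 : (EE h y.1 : SLn p n) = EE h (y.1 - y0.1) * EE h y0.1 := by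
      rw [← EE_add, sub_add_cancel]
    rw [h4, S.snd_smul, S.snd_smul, al_left S.B h3]

theorem C_mul (S : Sus Γ F M) (g g' : SLn p n) (x : F × M) :
    S.C (g * g') x = S.C g (g' • x) * S.C g' x := by
  unfold Sus.C
  rw [S.B.al_mul, S.V.J_mul, S.fst_smul, S.snd_smul]

theorem bdd_psi (S : Sus Γ F M) : ∃ B : ℕ, 1 ≤ B ∧ ∀ i m, |S.V.ψ i m| ≤ B := by
  have h1 : ∀ i, ∃ C : ℝ, ∀ m, |S.V.ψ i m| ≤ C := by
    intro i
    obtain ⟨C, hC⟩ := isCompact_univ.exists_bound_of_continuousOn (S.V.ψ_cont i).continuousOn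
    exact ⟨C, fun m => hC m (Set.mem_univ m)⟩
  choose C hC using h1
  obtain ⟨B, hB⟩ := exists_nat_ge (∑ i, |C i|)
  refine ⟨B + 1, by omega, fun i m => ?_⟩
  have h2 : |C i| ≤ ∑ i, |C i| :=
    Finset.single_le_sum (f := fun i => |C i|) (fun i _ => abs_nonneg _) (Finset.mem_univ i)
  push_cast
  linarith [hC i m, le_abs_self (C i)]

/-- Constants for one element of `Γ`. -/
theorem gam_const (S : Sus Γ F M) (γ : Γ) : ∃ K : ℝ, 1 ≤ K ∧ ∀ m m' : M,
    vn ((fun i => S.V.ψ i (γ • m') - S.V.ψ i (γ • m))) ≤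
      K * vn (fun i => S.V.ψ i m' - S.V.ψ i m) ∧
    vn ((fun i => S.V.ψ i (γ • m') - S.V.ψ i (γ • m)) -
      S.V.J γ m *ᵥ fun i => S.V.ψ i m' - S.V.ψ i m) ≤
      K * vn (fun i => S.V.ψ i m' - S.V.ψ i m) ^ 2 ∧ fn (S.V.J γ m) ≤ K := by
  obtain ⟨C, hC⟩ := S.V.J_err γ
  obtain ⟨B, hB1, hB⟩ := bdd_psi S
  have h1 : ∀ i j, ∃ D : ℝ, ∀ m, |S.V.J γ m i j| ≤ D := by
    intro i j
    obtain ⟨D, hD⟩ := isCompact_univ.exists_bound_of_continuousOn (S.V.J_cont γ i j).continuousOn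
    exact ⟨D, fun m => hD m (Set.mem_univ m)⟩
  choose D hD using h1
  set D0 : ℝ := ∑ i, ∑ j, |D i j| with hD0
  have hD00 : 0 ≤ D0 := Finset.sum_nonneg fun i _ => Finset.sum_nonneg fun j _ => abs_nonneg _
  have hDe : ∀ m i j, |S.V.J γ m i j| ≤ D0 := by
    intro m i j
    have h2 : |D i j| ≤ ∑ j, |D i j| :=
      Finset.single_le_sum (f := fun j => |D i j|) (fun j _ => abs_nonneg _) (Finset.mem_univ j)
    have h3 : ∑ j, |D i j| ≤ D0 :=
      Finset.single_le_sum (f := fun i => ∑ j, |D i j|)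
        (fun i _ => Finset.sum_nonneg fun j _ => abs_nonneg _) (Finset.mem_univ i)
    linarith [hD i j m, le_abs_self (D i j)]
  set J0 : ℝ := Fintype.card S.V.κ * D0 with hJ0
  have hJ00 : 0 ≤ J0 := by positivity
  have hJ : ∀ m, fn (S.V.J γ m) ≤ J0 := fun m => fn_le_of_entries hD00 (hDe m)
  have hBr : (0 : ℝ) ≤ B := Nat.cast_nonneg B
  set Z0 : ℝ := Fintype.card S.V.κ * (2 * B) with hZ0
  have hZ00 : 0 ≤ Z0 := by positivity
  have hZ : ∀ m m' : M, vn (fun i => S.V.ψ i m' - S.V.ψ i m) ≤ Z0 := by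
    intro m m'
    refine vn_le_of_entries (by positivity) fun i => ?_
    have h2 := hB i m
    have h3 := hB i m'
    rw [abs_le] at *
    constructor <;> linarith [h2.1, h2.2, h3.1, h3.2]
  refine ⟨1 + |C| + |C| * Z0 + J0, by have := abs_nonneg C; nlinarith [mul_nonneg this hZ00],
    fun m m' => ?_⟩
  set z : S.V.κ → ℝ := fun i => S.V.ψ i m' - S.V.ψ i m with hz
  set z' : S.V.κ → ℝ := fun i => S.V.ψ i (γ • m') - S.V.ψ i (γ • m) with hz'
  have hC0 := abs_nonneg C
  have e1 : vn (z' - S.V.J γ m *ᵥ z) ≤ |C| * vn z ^ 2 := by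
    refine (hC m m').trans ?_
    have h4 : dist0 S.V.ψ m m' = vn z := rfl
    rw [h4]
    exact mul_le_mul_of_nonneg_right (le_abs_self C) (by positivity)
  have e2 : vn (S.V.J γ m *ᵥ z) ≤ J0 * vn z :=
    (vn_mulVec_le _ _).trans (mul_le_mul_of_nonneg_right (hJ m) (vn_nonneg z))
  have e3 : vn z' ≤ vn (z' - S.V.J γ m *ᵥ z) + vn (S.V.J γ m *ᵥ z) := by
    have := vn_add_le (z' - S.V.J γ m *ᵥ z) (S.V.J γ m *ᵥ z)
    rwa [sub_add_cancel] at this
  have hzn := vn_nonneg z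
  have hzZ := hZ m m'
  have e4 : |C| * vn z ^ 2 ≤ |C| * Z0 * vn z := by
    have : vn z ^ 2 ≤ Z0 * vn z := by nlinarith
    nlinarith
  refine ⟨?_, ?_, ?_⟩
  · nlinarith [mul_nonneg hC0 hzn]
  · have h5 : 0 ≤ (1 + |C| * Z0 + J0) * vn z ^ 2 := by positivity
    nlinarith
  · have h6 := hJ m
    nlinarith [mul_nonneg hC0 hZ00]

/-- Constants for one element of the group. -/
theorem step_const (S : Sus Γ F M) (g : SLn p n) : ∃ K : ℝ, 1 ≤ K ∧ ∀ (f : F) (m m' : M),
    vn ((fun i => S.V.ψ i (S.B.al g f • m') - S.V.ψ i (S.B.al g f • m))) ≤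
      K * vn (fun i => S.V.ψ i m' - S.V.ψ i m) ∧
    vn ((fun i => S.V.ψ i (S.B.al g f • m') - S.V.ψ i (S.B.al g f • m)) -
      S.V.J (S.B.al g f) m *ᵥ fun i => S.V.ψ i m' - S.V.ψ i m) ≤
      K * vn (fun i => S.V.ψ i m' - S.V.ψ i m) ^ 2 ∧ fn (S.V.J (S.B.al g f) m) ≤ K := by
  have hfin : (Set.range (S.B.al g)).Finite := (S.B.al_lc g).range_finite
  choose K hK1 hK using gam_const S
  have := hfin.fintype
  set K0 : ℝ := ∑ γ ∈ hfin.toFinset, K γ with hK0
  have hle : ∀ f, K (S.B.al g f) ≤ K0 := by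
    intro f
    exact Finset.single_le_sum (f := fun γ => K γ) (fun γ _ => le_trans zero_le_one (hK1 γ))
      (hfin.mem_toFinset.2 ⟨f, rfl⟩)
  refine ⟨1 + |K0|, by have := abs_nonneg K0; linarith, fun f m m' => ?_⟩
  obtain ⟨h1, h2, h3⟩ := hK (S.B.al g f) m m'
  have h4 : K (S.B.al g f) ≤ 1 + |K0| := by
    have := le_abs_self K0
    linarith [hle f]
  exact ⟨h1.trans (mul_le_mul_of_nonneg_right h4 (vn_nonneg _)),
    h2.trans (mul_le_mul_of_nonneg_right h4 (by positivity)), h3.trans h4⟩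

/-- The cocycle is bounded on the compact part of a root group. -/
theorem EE_bdd (S : Sus Γ F M) {i j : Fin n} (h : i ≠ j) : ∃ K0 : ℝ, 1 ≤ K0 ∧
    ∀ (y : ℤ_[p]) (x : F × M), fn (S.C (EE h (y : ℚ_[p])) x) ≤ K0 := by
  choose K hK1 hK using step_const S
  set K0 : ℝ := ∑ m ∈ Finset.range (p ^ 2), K (EE h (m : ℚ_[p])) with hK0
  refine ⟨1 + |K0|, by have := abs_nonneg K0; linarith, fun y x => ?_⟩
  have h1 : y.appr 2 < p ^ 2 := PadicInt.appr_lt y 2
  have h2 : ‖y - (y.appr 2 : ℤ_[p])‖ ≤ (p : ℝ) ^ (-(2 : ℤ)) := by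
    have := PadicInt.appr_spec 2 y
    rw [← PadicInt.norm_le_pow_iff_mem_span_pow] at this
    exact_mod_cast this
  have h3 : (EE h ((y : ℚ_[p]) - (y.appr 2 : ℚ_[p])) : SLn p n) ∈ KM p n 2 := by
    refine EE_mem_KM h ?_
    have e : ((y : ℚ_[p]) - (y.appr 2 : ℚ_[p])) = ((y - (y.appr 2 : ℤ_[p]) : ℤ_[p]) : ℚ_[p]) := by
      push_cast
      ring
    rw [e, PadicInt.padic_norm_e_of_padicInt]
    exact h2
  have h4 : (EE h (y : ℚ_[p]) : SLn p n) =
      EE h ((y : ℚ_[p]) - (y.appr 2 : ℚ_[p])) * EE h (y.appr 2 : ℚ_[p]) := by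
    rw [← EE_add, sub_add_cancel]
  have h5 : fn (S.C (EE h (y : ℚ_[p])) x) ≤ K (EE h (y.appr 2 : ℚ_[p])) := by
    unfold Sus.C
    rw [h4, al_left S.B h3]
    exact (hK _ x.1 x.2 x.2).2.2
  have h6 : K (EE h (y.appr 2 : ℚ_[p])) ≤ K0 :=
    Finset.single_le_sum (f := fun m : ℕ => K (EE h (m : ℚ_[p])))
      (fun m _ => le_trans zero_le_one (hK1 _)) (Finset.mem_range.2 h1)
  linarith [le_abs_self K0]

theorem measurable_fnC (S : Sus Γ F M) (g : SLn p n) : Measurable fun x : F × M => fn (S.C g x) := by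
  refine MM.fn fun k l => ?_
  have h1 : Continuous fun x : F × M => S.C g x k l := by
    rw [continuous_iff_continuousAt]
    intro x
    have h2 : IsOpen {f : F | S.B.al g f = S.B.al g x.1} := (S.B.al_lc g).isOpen_fiber _
    have h3 : ContinuousAt (fun y : F × M => S.V.J (S.B.al g x.1) y.2 k l) x :=
      ((S.V.J_cont _ k l).comp continuous_snd).continuousAt
    refine h3.congr ?_
    have h4 : ∀ᶠ y : F × M in 𝓝 x, y.1 ∈ {f : F | S.B.al g f = S.B.al g x.1} :=
      continuous_fst.continuousAt.eventually (h2.mem_nhds rfl)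
    filter_upwards [h4] with y hy
    unfold Sus.C
    rw [show S.B.al g y.1 = S.B.al g x.1 from hy]
  exact h1.measurable

end

end Pool.Agent.H53.IV
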