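import Mathlib

/-!
MP_d9606f_gt, full answer, part (S4), invariance principle (helper53).  The space of digits.

`Dg q = ℕ → Fin q` with the product `PD q` of the uniform measures; `shf` the shift;
`mp_split`: the first digit is uniform and independent of the shifted sequence;
`real_pre`: the first `k` digits are uniformly distributed;
`sv p b S = ∑ i, S i p ^ (b i)`, a `p`-adic integer.
-/

set_option autoImplicit false

namespace Pool.Agent.H53.IV

open MeasureTheory Filter Topology

noncomputable section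

/-- the space of digits -/
abbrev Dg (q : ℕ) : Type := ℕ → Fin q

/-- the uniform measure -/
def unif (q : ℕ) [NeZero q] : Measure (Fin q) := (PMF.uniformOfFintype (Fin q)).toMeasure

instance instProbUnif (q : ℕ) [NeZero q] : IsProbabilityMeasure (unif q) := by
  unfold unif
  infer_instance

theorem unif_singleton (q : ℕ) [NeZero q] (s : Fin q) : unif q {s} = (q : ENNReal)⁻¹ := by
  unfold unif
  rw [PMF.toMeasure_apply_singleton _ _ (measurableSet_singleton s), PMF.uniformOfFintype_apply,
    Fintype.card_fin]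

/-- the product measure -/
def PD (q : ℕ) [NeZero q] : Measure (Dg q) := Measure.infinitePi fun _ : ℕ => unif q

instance instProbPD (q : ℕ) [NeZero q] : IsProbabilityMeasure (PD q) := by
  unfold PD
  infer_instance

/-- the shift -/
def shf {q : ℕ} (S : Dg q) : Dg q := fun i => S (i + 1)

/-- add a first digit -/
def cns {q : ℕ} (x : Fin q × Dg q) : Dg q := fun i => match i with
  | 0 => x.1
  | i + 1 => x.2 i

theorem measurable_cns {q : ℕ} : Measurable (cns : Fin q × Dg q → Dg q) := by
  rw [measurable_pi_iff]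
  intro i
  cases i with
  | zero => exact measurable_fst
  | succ i => exact (measurable_pi_apply i).comp measurable_snd

theorem measurable_shf {q : ℕ} : Measurable (shf : Dg q → Dg q) :=
  measurable_pi_iff.2 fun i => measurable_pi_apply (i + 1)

theorem cns_map (q : ℕ) [NeZero q] : ((unif q).prod (PD q)).map cns = PD q := by
  refine Measure.eq_infinitePi _ fun s t ht => ?_
  have hinj : Function.Injective Nat.succ := Nat.succ_injective
  set s' : Finset ℕ := (s.erase 0).preimage Nat.succ hinj.injOn with hs'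
  set A0 : Set (Fin q) := if 0 ∈ s then t 0 else Set.univ with hA0
  have h1 : cns ⁻¹' (Set.pi (s : Set ℕ) t) = A0 ×ˢ (Set.pi (s' : Set ℕ) fun i => t (i + 1)) := by
    ext ⟨a, S⟩
    simp only [Set.mem_preimage, Set.mem_pi, Finset.mem_coe, Set.mem_prod, hA0, hs',
      Finset.mem_preimage, Finset.mem_erase]
    constructor
    · intro h
      refine ⟨?_, fun i hi => h (i + 1) hi.2⟩
      by_cases h0 : 0 ∈ s
      · rw [if_pos h0]
        exact h 0 h0
      · rw [if_neg h0]
        trivial
    · rintro ⟨h0, hS⟩ i hi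
      cases i with
      | zero =>
        rw [if_pos hi] at h0
        exact h0
      | succ i => exact hS i ⟨Nat.succ_ne_zero i, hi⟩
  have h2 : ∏ i ∈ s', unif q (t (i + 1)) = ∏ i ∈ s.erase 0, unif q (t i) := by
    refine Finset.prod_preimage Nat.succ (s.erase 0) hinj.injOn (fun i => unif q (t i)) ?_
    intro x hx hx'
    exfalso
    apply hx'
    have := (Finset.mem_erase.1 hx).1
    exact ⟨x - 1, by simp only [Nat.succ_eq_add_one]; omega⟩
  rw [Measure.map_apply measurable_cns (MeasurableSet.pi s.countable_toSet fun i _ => ht i), h1,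
    Measure.prod_prod]
  have h3 : PD q (Set.pi (s' : Set ℕ) fun i => t (i + 1)) = ∏ i ∈ s', unif q (t (i + 1)) :=
    Measure.infinitePi_pi _ fun i _ => ht (i + 1)
  rw [h3, h2]
  by_cases h0 : 0 ∈ s
  · rw [hA0, if_pos h0]
    exact Finset.mul_prod_erase s (fun i => unif q (t i)) h0
  · rw [hA0, if_neg h0, measure_univ, one_mul, Finset.erase_eq_of_notMem h0]

theorem mp_cns (q : ℕ) [NeZero q] : MeasurePreserving cns ((unif q).prod (PD q)) (PD q) :=
  ⟨measurable_cns, cns_map q⟩

theorem mp_split (q : ℕ) [NeZero q] :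
    MeasurePreserving (fun S : Dg q => (S 0, shf S)) (PD q) ((unif q).prod (PD q)) := by
  have hm : Measurable fun S : Dg q => (S 0, shf S) :=
    (measurable_pi_apply 0).prodMk measurable_shf
  refine ⟨hm, ?_⟩
  conv_lhs => rw [← cns_map q]
  rw [Measure.map_map hm measurable_cns]
  have : (fun S : Dg q => (S 0, shf S)) ∘ cns = id := by
    funext x
    rfl
  rw [this, Measure.map_id]

theorem mp_shf (q : ℕ) [NeZero q] : MeasurePreserving (shf : Dg q → Dg q) (PD q) (PD q) :=
  measurePreserving_snd.comp (mp_split q)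

theorem shf_iter {q : ℕ} (j : ℕ) (S : Dg q) (i : ℕ) : (shf^[j] S) i = S (j + i) := by
  induction j generalizing i with
  | zero => simp
  | succ j ih =>
    rw [Function.iterate_succ_apply']
    change (shf^[j] S) (i + 1) = _
    rw [ih]
    congr 1
    ring

theorem measure_pre (q : ℕ) [NeZero q] (k : ℕ) (a : Fin k → Fin q) :
    PD q {S | ∀ i : Fin k, S i = a i} = ((q : ENNReal)⁻¹) ^ k := by
  have h1 : {S : Dg q | ∀ i : Fin k, S i = a i} =
      Set.pi (Finset.range k : Set ℕ) fun i => if h : i < k then {a ⟨i, h⟩} else Set.univ := by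
    ext S
    simp only [Set.mem_ofPred_eq, Set.mem_pi, Finset.coe_range, Set.mem_Iio]
    constructor
    · intro h i hi
      rw [dif_pos hi]
      exact h ⟨i, hi⟩
    · intro h i
      have := h i i.2
      rw [dif_pos i.2] at this
      exact this
  rw [h1]
  have h2 := Measure.infinitePi_pi (fun _ : ℕ => unif q) (s := Finset.range k)
    (t := fun i => if h : i < k then {a ⟨i, h⟩} else Set.univ) (fun i _ => by
      split_ifs
      · exact measurableSet_singleton _
      · exact MeasurableSet.univ)
  unfold PD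
  rw [h2, Finset.prod_congr rfl (g := fun _ => (q : ENNReal)⁻¹), Finset.prod_const,
    Finset.card_range]
  intro i hi
  rw [dif_pos (Finset.mem_range.1 hi), unif_singleton]

/-! ### The value -/

section val

variable (p : ℕ) [Fact p.Prime] (b : ℕ)

/-- the value of the digit sequence -/
def sv {q : ℕ} (S : Dg q) : ℤ_[p] := ∑' i : ℕ, ((S i : ℕ) : ℤ_[p]) * ((p : ℤ_[p]) ^ b) ^ i

variable {b}

theorem norm_pb (hb : 1 ≤ b) : ‖(p : ℤ_[p]) ^ b‖ < 1 := by
  rw [norm_pow, PadicInt.norm_p]
  have hp : (1 : ℝ) < p := by exact_mod_cast (Fact.out : p.Prime).one_lt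
  exact pow_lt_one₀ (by positivity) (inv_lt_one_of_one_lt₀ hp) (by omega)

theorem norm_term {q : ℕ} (S : Dg q) (i : ℕ) :
    ‖((S i : ℕ) : ℤ_[p]) * ((p : ℤ_[p]) ^ b) ^ i‖ ≤ ‖(p : ℤ_[p]) ^ b‖ ^ i := by
  rw [norm_mul, norm_pow (_ ^ b)]
  have h1 : ‖((S i : ℕ) : ℤ_[p])‖ ≤ 1 := PadicInt.norm_le_one _
  exact mul_le_of_le_one_left (by positivity) h1

theorem summable_sv (hb : 1 ≤ b) {q : ℕ} (S : Dg q) :
    Summable fun i : ℕ => ((S i : ℕ) : ℤ_[p]) * ((p : ℤ_[p]) ^ b) ^ i :=
  Summable.of_norm_bounded (summable_geometric_of_lt_one (norm_nonneg _) (norm_pb p hb))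
    (norm_term p S)

theorem sv_succ (hb : 1 ≤ b) {q : ℕ} (S : Dg q) :
    sv p b S = ((S 0 : ℕ) : ℤ_[p]) + (p : ℤ_[p]) ^ b * sv p b (shf S) := by
  unfold sv
  rw [(summable_sv p hb S).tsum_eq_zero_add, pow_zero, mul_one,
    ← (summable_sv p hb (shf S)).tsum_mul_left]
  congr 1
  refine tsum_congr fun i => ?_
  unfold shf
  rw [pow_succ]
  ring

theorem continuous_sv (hb : 1 ≤ b) {q : ℕ} : Continuous (sv p b : Dg q → ℤ_[p]) := by
  refine continuous_tsum (u := fun i => ‖(p : ℤ_[p]) ^ b‖ ^ i) ?_
    (summable_geometric_of_lt_one (norm_nonneg _) (norm_pb p hb)) fun i S => norm_term p S i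
  intro i
  refine Continuous.mul ?_ continuous_const
  exact (continuous_of_discreteTopology (f := fun s : Fin q => ((s : ℕ) : ℤ_[p]))).comp
    (continuous_apply i)

end val

end

end Pool.Agent.H53.IV
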