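import Pool.Agent.H53.IV.Abs

/-!
MP_d9606f_gt, full answer, part (S4), invariance principle (helper53).  The entropy inequality.

`W = (Pt, X.xi l)`, `Pt` the truth value of `t < Φ (ψ w)`, `δ = log q - Hc P S0 W`.
`main_ineq`: `k δ ≤ log #cells + k (binEntropy η + η log 2)` with `k = R T`.
`delta_le`: `δ ≤ 0`.
`indep`: the digit is independent of `(X.xi l, Φ (ψ) > t)`.
-/

set_option autoImplicit false

namespace Pool.Agent.H53.IV

open H88.ENT MeasureTheory Filter Topology

noncomputable section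

variable {Ω : Type} [MeasurableSpace Ω] {P : Measure Ω} {q : ℕ} {κ : Type} [Fintype κ]
  [DecidableEq κ]

set_option linter.unusedSectionVars false

namespace ZSys

variable (E : ZSys Ω P q κ)

/-- truth value of `t < Φ (ψ w)` -/
def Pt (Φ : (κ → ℝ) → ℝ) (t : ℝ) (w : Ω) : Bool := @decide (t < Φ (E.ψ w)) (Classical.dec _)

theorem Pt_eq {Φ : (κ → ℝ) → ℝ} {t : ℝ} {w w' : Ω} (h : t < Φ (E.ψ w) ↔ t < Φ (E.ψ w')) :
    E.Pt Φ t w = E.Pt Φ t w' := by
  classical
  unfold Pt
  simp only [h]

theorem Pt_true {Φ : (κ → ℝ) → ℝ} {t : ℝ} {w : Ω} : E.Pt Φ t w = true ↔ t < Φ (E.ψ w) := by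
  classical
  unfold Pt
  exact decide_eq_true_iff

theorem meas_psi : Measurable E.ψ := measurable_pi_iff.2 E.mψ

theorem mPt {Φ : (κ → ℝ) → ℝ} (hΦ : Measurable Φ) (t : ℝ) : FM (E.Pt Φ t) := by
  have h1 : MeasurableSet {w | t < Φ (E.ψ w)} :=
    measurableSet_lt measurable_const (hΦ.comp E.meas_psi)
  have h2 : E.Pt Φ t ⁻¹' {true} = {w | t < Φ (E.ψ w)} := by
    ext w
    simp only [Set.mem_preimage, Set.mem_singleton_iff, E.Pt_true, Set.mem_ofPred_eq]
  intro b
  cases b
  · have h3 : E.Pt Φ t ⁻¹' {false} = (E.Pt Φ t ⁻¹' {true})ᶜ := by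
      ext w
      simp
    rw [h3, h2]
    exact h1.compl
  · rw [h2]
    exact h1

variable [IsProbabilityMeasure P]

theorem real_iter {A : Set Ω} (hA : MeasurableSet A) (j : ℕ) :
    P.real ((E.σ^[j]) ⁻¹' A) = P.real A := by
  unfold Measure.real
  rw [(E.mp.iterate j).measure_preimage hA.nullMeasurableSet]

theorem pre_unif [NeZero q] (k : ℕ) :
    hh P E.X (pre E.S k) (fun _ => ()) = k * Real.log q := by
  have h1 := hh_uniform (P := P) (X := E.X) (R := pre E.S k) (S := fun _ : Ω => ())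
    (FM.pre E.mS k) (FM.const ()) (by
      intro l a b c
      have e : (fun _ : Ω => ()) ⁻¹' {b} = Set.univ := by
        ext w
        simp
      rw [e, Set.univ_inter]
      have := E.uni k l a c
      rw [Fintype.card_fun, Fintype.card_fin, Fintype.card_fin]
      push_cast
      exact this)
  rw [h1, Fintype.card_fun, Fintype.card_fin, Fintype.card_fin]
  push_cast
  rw [Real.log_pow]

theorem main_ineq [NeZero q] {Φ : (κ → ℝ) → ℝ} (hΦ : LipschitzWith 1 Φ) (t : ℝ) (l : ℕ)
    {R T : ℕ} (hR : 1 ≤ R) (hT : 1 ≤ T) (hs : (2 : ℝ) ^ R * Real.exp (-T) ≤ 1) {N : ℕ}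
    (hN : Real.exp ((Real.log E.K + 2) * T) ≤ N) {η : ℝ}
    (hη : R * P.real {w | Real.exp ((1 / R : ℝ) * T) < E.a T w} +
      P.real {w | |Φ (E.ψ w) - t| ≤ 2 ^ R * Real.exp (-T)} ≤ η) (hη2 : η ≤ 1 / 2) :
    (R * T : ℕ) * (Real.log q - Hc P E.S0 (fun w => (E.Pt Φ t w, E.X.xi l w))) ≤
      Real.log (Fintype.card (κ → Fin (2 * E.B * N + 1))) +
        (R * T : ℕ) * (Real.binEntropy η + η * Real.log 2) := by
  have hΦm : Measurable Φ := hΦ.continuous.measurable
  set k := R * T with hk
  have mQ := E.m_cell N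
  have mP := E.mPt hΦm t
  have hσ := E.mp
  obtain ⟨L, hL⟩ := E.path hR hT hs
  have hN1 : 1 ≤ N := by
    have h1 : (0 : ℝ) < N := lt_of_lt_of_le (Real.exp_pos _) hN
    exact_mod_cast h1
  -- one digit
  have one : ∀ j < k, hh P E.X (E.S j) (fun w => (pre E.S j w, E.cell N w)) ≤
      Hc P E.S0 (fun w => (E.Pt Φ t w, E.X.xi l w)) + (Real.binEntropy η + η * Real.log 2) := by
    intro j hj
    have mPj : FM (fun w => E.Pt Φ t (E.σ^[j] w)) := mP.comp_measurable (hσ.measurable.iterate j)
    have mC := (FM.pre E.mS j).prod mQ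
    have h1 : hh P E.X (E.S j) (fun w => (pre E.S j w, E.cell N w)) ≤
        hh P E.X (fun w => (E.S j w, E.Pt Φ t (E.σ^[j] w))) (fun w => (pre E.S j w, E.cell N w)) :=
      hh_mono (E.mS j) ((E.mS j).prod mPj) mC ⟨0, fun x => x.1.1.1, fun w => rfl⟩
    have h2 := hh_chain (P := P) (X := E.X) (E.mS j) mPj mC
    have h3 : hh P E.X (E.S j) (fun w => (E.Pt Φ t (E.σ^[j] w), (pre E.S j w, E.cell N w))) ≤
        Hc P E.S0 (fun w => (E.Pt Φ t w, E.X.xi l w)) := by
      have h4 := Hc_mp (P := P) E.mS0 (mP.prod (E.X.meas l)) (hσ.iterate j)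
      rw [← h4]
      obtain ⟨l', hl'⟩ := E.same_iter j l
      have : Nonempty (Bool × E.X.I l) := by
        obtain ⟨w⟩ := MeasureTheory.nonempty_of_isProbabilityMeasure P
        exact ⟨(true, E.X.xi l w)⟩
      refine hh_le_of_det (E.mS j) (mPj.prod mC) (det_of_same l' fun w w' h5 h6 => ?_)
      simp only [Prod.mk.injEq] at h5 ⊢
      exact ⟨h5.1, hl' w w' (E.pre_eq.1 h5.2.1) h6⟩
    have h4 : hh P E.X (fun w => E.Pt Φ t (E.σ^[j] w)) (fun w => (pre E.S j w, E.cell N w)) ≤
        Real.binEntropy η + η * Real.log 2 := by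
      set G : Set Ω := (⋂ i ∈ Finset.range R,
        (E.σ^[i * T]) ⁻¹' {w | Real.exp ((1 / R : ℝ) * T) < E.a T w}ᶜ) ∩
          (E.σ^[j]) ⁻¹' {w | |Φ (E.ψ w) - t| ≤ 2 ^ R * Real.exp (-T)}ᶜ with hG
      have mA : MeasurableSet {w | Real.exp ((1 / R : ℝ) * T) < E.a T w} :=
        measurableSet_lt measurable_const (E.ma T)
      have mB : MeasurableSet {w | |Φ (E.ψ w) - t| ≤ 2 ^ R * Real.exp (-T)} := by
        have h5 : Measurable fun w => |Φ (E.ψ w) - t| := by
          have h6 : Measurable fun w => Φ (E.ψ w) - t := (hΦm.comp E.meas_psi).sub_const t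
          exact h6.abs
        exact measurableSet_le h5 measurable_const
      have mG : MeasurableSet G := by
        refine MeasurableSet.inter ?_ ((hσ.measurable.iterate j) mB.compl)
        exact MeasurableSet.biInter (Finset.range R).countable_toSet fun i _ =>
          (hσ.measurable.iterate (i * T)) mA.compl
      have hGc : P.real Gᶜ ≤ η := by
        have h5 : Gᶜ ⊆ (⋃ i ∈ Finset.range R,
            (E.σ^[i * T]) ⁻¹' {w | Real.exp ((1 / R : ℝ) * T) < E.a T w}) ∪
            (E.σ^[j]) ⁻¹' {w | |Φ (E.ψ w) - t| ≤ 2 ^ R * Real.exp (-T)} := by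
          intro w hw
          rw [hG, Set.compl_inter, Set.mem_union] at hw
          rcases hw with hw | hw
          · left
            simpa using hw
          · right
            simpa using hw
        refine (measureReal_mono h5).trans ((measureReal_union_le _ _).trans ?_)
        refine le_trans (add_le_add ?_ (E.real_iter mB j).le) hη
        refine (measureReal_biUnion_finset_le _ _).trans ?_
        rw [Finset.sum_congr rfl fun i _ => E.real_iter mA (i * T), Finset.sum_const,
          Finset.card_range, nsmul_eq_mul]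
      have h5 := hh_counting (P := P) (X := E.X) mPj mC mG hGc hη2 one_pos L (by
        intro b c
        refine (Set.ncard_le_one (Set.toFinite _)).2 ?_
        rintro _ ⟨w, ⟨⟨hw1, hw2⟩, hw3⟩, rfl⟩ _ ⟨w', ⟨⟨hw1', hw2'⟩, hw3'⟩, rfl⟩
        have e1 : (pre E.S j w, E.cell N w) = (pre E.S j w', E.cell N w') := by
          rw [show (pre E.S j w, E.cell N w) = b from hw2,
            show (pre E.S j w', E.cell N w') = b from hw2']
        simp only [Prod.mk.injEq] at e1
        have e2 : E.X.xi L w = E.X.xi L w' := by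
          rw [show E.X.xi L w = c from hw3, show E.X.xi L w' = c from hw3']
        have e3 := hL w w' j hj.le (E.pre_eq.1 e1.1) e2 (fun i hi => by
          have := Set.mem_iInter₂.1 hw1.1 i (Finset.mem_range.2 hi)
          simpa using this) (by
          refine (E.cell_close hN1 e1.2).trans ?_
          rw [Real.exp_neg, one_div]
          exact inv_anti₀ (Real.exp_pos _) hN)
        have e4 : 2 ^ R * Real.exp (-T) < |Φ (E.ψ (E.σ^[j] w)) - t| := by
          have := hw1.2
          simpa using this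
        have e5 : |Φ (E.ψ (E.σ^[j] w)) - Φ (E.ψ (E.σ^[j] w'))| ≤ 2 ^ R * Real.exp (-T) := by
          have := hΦ.dist_le_mul (E.ψ (E.σ^[j] w)) (E.ψ (E.σ^[j] w'))
          rw [NNReal.coe_one, one_mul, Real.dist_eq] at this
          exact this.trans e3
        refine E.Pt_eq ?_
        have e6 := abs_le.1 e5
        rcases lt_abs.1 e4 with h | h
        · constructor <;> intro _ <;> linarith [e6.1, e6.2]
        · constructor <;> intro _ <;> linarith [e6.1, e6.2])
      rw [Nat.cast_one, Real.log_one, add_zero, Fintype.card_bool] at h5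
      exact_mod_cast h5
    linarith
  -- all digits
  have all : hh P E.X (pre E.S k) (E.cell N) ≤ k * (Hc P E.S0 (fun w => (E.Pt Φ t w, E.X.xi l w)) +
      (Real.binEntropy η + η * Real.log 2)) := by
    rw [hh_pre E.mS mQ k]
    refine (Finset.sum_le_sum fun j hj => one j (Finset.mem_range.1 hj)).trans (le_of_eq ?_)
    rw [Finset.sum_const, Finset.card_range, nsmul_eq_mul]
  have h1 := hh_swap (P := P) (X := E.X) mQ (FM.pre E.mS k) (FM.const ())
  have h2 := E.pre_unif (P := P) k
  have h3 : hh P E.X (pre E.S k) (fun w => (E.cell N w, ())) ≤ hh P E.X (pre E.S k) (E.cell N) :=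
    hh_anti (FM.pre E.mS k) (mQ.prod (FM.const ())) mQ ⟨0, fun x => x.1.1, fun w => rfl⟩
  have h4 := hh_nonneg (P := P) (X := E.X) mQ ((FM.pre E.mS k).prod (FM.const ()))
  have h5 := hh_le_log_card (P := P) (X := E.X) mQ (FM.const ())
  nlinarith

end ZSys

end

end Pool.Agent.H53.IV
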