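import Pool.Agent.H67.LX.Bas

/-!
MP_d9606f_gt, full answer, part (S4), invariance principle (helper53).  Orbits of the congruence
subgroups in the base.

`cl p n F l : F → Cl p n F l`: the class of a point under `KM p n l`; finitely many classes, clopen;
finite measures on `F` are determined by the classes.
-/

set_option autoImplicit false
set_option linter.unusedSectionVars false

open MeasureTheory Filter Matrix
open scoped Topology
open Pool.Agent.H73.PZ
open Pool.Agent.H23.DM
open Pool.Agent.H67.LX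

namespace Pool.Agent.H53.IV

noncomputable section

variable {p : ℕ} [Fact p.Prime] {n : ℕ} {Γ : Subgroup (SLn p n)} {F : Type}
    [TopologicalSpace F] [CompactSpace F] [T2Space F] [SecondCountableTopology F]
    [MeasurableSpace F] [BorelSpace F] [MulAction (SLn p n) F]

/-- the classes -/
abbrev Cl (p : ℕ) [Fact p.Prime] (n : ℕ) (F : Type) [MulAction (SLn p n) F] (l : ℕ) : Type :=
  Quotient (MulAction.orbitRel (KM p n l) F)

/-- the class of a point -/
def cl (p : ℕ) [Fact p.Prime] (n : ℕ) {F : Type} [MulAction (SLn p n) F] (l : ℕ) (f : F) :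
    Cl p n F l := Quotient.mk _ f

theorem cl_eq {l : ℕ} {f f' : F} : cl p n l f = cl p n l f' ↔ ∃ k ∈ KM p n l, f' = k • f := by
  unfold cl
  rw [Quotient.eq]
  rw [MulAction.orbitRel_apply, MulAction.mem_orbit_iff]
  constructor
  · rintro ⟨k, hk⟩
    refine ⟨(k : SLn p n)⁻¹, inv_mem k.2, ?_⟩
    rw [← hk]
    change f' = (k : SLn p n)⁻¹ • (k : SLn p n) • f'
    rw [inv_smul_smul]
  · rintro ⟨k, hk, hf⟩
    refine ⟨⟨k⁻¹, inv_mem hk⟩, ?_⟩
    change k⁻¹ • f' = f
    rw [hf, inv_smul_smul]

theorem cl_surj (l : ℕ) (c : Cl p n F l) : ∃ f : F, cl p n l f = c := Quotient.exists_rep c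

theorem cl_fibre (l : ℕ) (f : F) :
    cl p n l ⁻¹' {cl p n l f} = {f' : F | ∃ k ∈ KM p n l, f' = k • f} := by
  ext f'
  simp only [Set.mem_preimage, Set.mem_singleton_iff, Set.mem_ofPred_eq]
  rw [eq_comm, cl_eq]

theorem cl_anti {l m : ℕ} (h : l ≤ m) {f f' : F} (hf : cl p n m f = cl p n m f') :
    cl p n l f = cl p n l f' := by
  obtain ⟨k, hk, e⟩ := cl_eq.1 hf
  exact cl_eq.2 ⟨k, KM_anti h hk, e⟩

theorem isOpen_fibre (B : Base Γ F) (l : ℕ) (c : Cl p n F l) : IsOpen (cl p n l ⁻¹' {c}) := by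
  obtain ⟨f, rfl⟩ := cl_surj l c
  rw [cl_fibre]
  exact B.orbit_open l f

theorem finite_Cl (B : Base Γ F) (l : ℕ) : Finite (Cl p n F l) := by
  obtain ⟨t, ht⟩ := isCompact_univ.elim_nhds_subcover (fun f : F => cl p n l ⁻¹' {cl p n l f})
    (fun f _ => (isOpen_fibre B l _).mem_nhds rfl)
  refine Finite.of_surjective (fun f : t => cl p n l (f : F)) fun c => ?_
  obtain ⟨f, rfl⟩ := cl_surj l c
  obtain ⟨f', hf', h⟩ := Set.mem_iUnion₂.1 (ht.2 (Set.mem_univ f))
  exact ⟨⟨f', hf'⟩, h.symm⟩

/-- small orbits -/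
theorem exists_small (B : Base Γ F) {U : Set F} (hU : IsOpen U) {f : F} (hf : f ∈ U) :
    ∃ l, ∀ f', cl p n l f = cl p n l f' → f' ∈ U := by
  have h1 : Continuous fun g : SLn p n => g • f :=
    B.cont.comp (continuous_id.prodMk continuous_const)
  have h2 : (fun g : SLn p n => g • f) ⁻¹' U ∈ 𝓝 (1 : SLn p n) := by
    refine (hU.preimage h1).mem_nhds ?_
    change (1 : SLn p n) • f ∈ U
    rw [one_smul]
    exact hf
  obtain ⟨l, hl⟩ := exists_KM_subset h2
  refine ⟨l, fun f' h => ?_⟩
  obtain ⟨k, hk, rfl⟩ := cl_eq.1 h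
  exact hl hk

/-- finite measures are determined by the classes -/
theorem ext_cl (B : Base Γ F) (ν ν' : Measure F) [IsFiniteMeasure ν]
    (h : ∀ l (c : Cl p n F l), ν (cl p n l ⁻¹' {c}) = ν' (cl p n l ⁻¹' {c})) : ν = ν' := by
  have hD : ∀ l (D : Set (Cl p n F l)), ν (cl p n l ⁻¹' D) = ν' (cl p n l ⁻¹' D) := by
    intro l D
    have := finite_Cl B l
    have := Fintype.ofFinite (Cl p n F l)
    classical
    have e : D = ((D.toFinset : Finset (Cl p n F l)) : Set (Cl p n F l)) := by simp
    rw [e, ← sum_measure_preimage_singleton _ fun c _ => (isOpen_fibre B l c).measurableSet,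
      ← sum_measure_preimage_singleton _ fun c _ => (isOpen_fibre B l c).measurableSet]
    exact Finset.sum_congr rfl fun c _ => h l c
  have hopen : ∀ U : Set F, IsOpen U → ν U = ν' U := by
    intro U hU
    set V : ℕ → Set F := fun l => cl p n l ⁻¹' {c | ∀ f', cl p n l f' = c → f' ∈ U} with hV
    have hmono : Monotone V := by
      intro l m hlm f hf f' hf'
      exact hf f' (cl_anti hlm hf')
    have hun : U = ⋃ l, V l := by
      ext f
      simp only [Set.mem_iUnion]
      constructor
      · intro hf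
        obtain ⟨l, hl⟩ := exists_small B hU hf
        exact ⟨l, fun f' hf' => hl f' hf'.symm⟩
      · rintro ⟨l, hl⟩
        exact hl f rfl
    rw [hun]
    refine tendsto_nhds_unique (tendsto_measure_iUnion_atTop hmono) ?_
    refine (tendsto_measure_iUnion_atTop hmono).congr fun l => ?_
    exact (hD l _).symm
  exact ext_of_generate_finite _ (BorelSpace.measurable_eq (α := F)) isPiSystem_isOpen
    (fun U hU => hopen U hU) (hopen _ isOpen_univ)

end

end Pool.Agent.H53.IV
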