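import Pool.Agent.H53.IV.Lim
import Pool.Agent.H53.IV.Dig
import Pool.Agent.H53.IV.Orb
import Pool.Agent.H53.IV.Act

/-!
MP_d9606f_gt, full answer, part (S4), invariance principle (helper53).  The dynamics.

`Ω = Dg (p ^ b) × (F × M)`, `sg (s, x) = (shift s, dgh w x)`, `Fh (s, x) = EE (- sv s) x`;
`Fh (sg ω) = gs (ω.1 0) (Fh ω)`, `gs s = dgh w * EE s`, if `rt i j w = b`.
-/

set_option autoImplicit false
set_option linter.unusedSectionVars false

open MeasureTheory Filter Matrix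
open scoped Topology
open Pool.Agent.H73.PZ
open Pool.Agent.H23.DM
open Pool.Agent.H67.LX

namespace Pool.Agent.H53.IV

noncomputable section

variable {p : ℕ} [Fact p.Prime] {n : ℕ} {Γ : Subgroup (SLn p n)} {F M : Type}
    [TopologicalSpace F] [CompactSpace F] [T2Space F] [SecondCountableTopology F]
    [MeasurableSpace F] [BorelSpace F] [MulAction (SLn p n) F]
    [TopologicalSpace M] [CompactSpace M] [T2Space M] [SecondCountableTopology M]
    [MeasurableSpace M] [BorelSpace M] [MulAction Γ M]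
    [MulAction (SLn p n) (F × M)] [MulAction (AZ n) (F × M)]

instance instNeZeroPow (b : ℕ) : NeZero (p ^ b) := ⟨pow_ne_zero _ (Fact.out : p.Prime).ne_zero⟩

/-- the group element of one step -/
def gs (w : AZ n) {i j : Fin n} (h : i ≠ j) (b : ℕ) (s : Fin (p ^ b)) : SLn p n :=
  dgh p n w * EE h ((s : ℕ) : ℚ_[p])

/-- the position -/
def Fh {i j : Fin n} (h : i ≠ j) (b : ℕ) (ω : Dg (p ^ b) × (F × M)) : F × M :=
  (EE h (-(sv p b ω.1 : ℚ_[p])) : SLn p n) • ω.2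

/-- the dynamics -/
def sg (w : AZ n) (b : ℕ) (ω : Dg (p ^ b) × (F × M)) : Dg (p ^ b) × (F × M) :=
  (shf ω.1, dgh p n w • ω.2)

variable {w : AZ n} {i j : Fin n} {h : i ≠ j} {b : ℕ}

theorem gs_key (hb : 1 ≤ b) (hw : rt i j w = b) (D : Dg (p ^ b)) :
    gs w h b (D 0) * EE h (-(sv p b D : ℚ_[p])) =
      EE h (-(sv p b (shf D) : ℚ_[p])) * dgh p n w := by
  unfold gs
  rw [mul_assoc, ← EE_add, dgh_conj w h, hw]
  congr 2
  have h1 := congrArg (fun x : ℤ_[p] => (x : ℚ_[p])) (sv_succ p hb D)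
  simp only [PadicInt.coe_add, PadicInt.coe_mul, PadicInt.coe_pow, PadicInt.coe_natCast] at h1
  rw [h1]
  have hp : (p : ℚ_[p]) ≠ 0 := by exact_mod_cast (Fact.out : p.Prime).ne_zero
  have h2 : (p : ℚ_[p]) ^ (-(b : ℤ)) * (p : ℚ_[p]) ^ b = 1 := by
    rw [_root_.zpow_neg, zpow_natCast]
    exact inv_mul_cancel₀ (pow_ne_zero _ hp)
  calc (p : ℚ_[p]) ^ (-(b : ℤ)) * (((D 0 : ℕ) : ℚ_[p]) +
        -(((D 0 : ℕ) : ℚ_[p]) + (p : ℚ_[p]) ^ b * (sv p b (shf D) : ℚ_[p])))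
      = -(((p : ℚ_[p]) ^ (-(b : ℤ)) * (p : ℚ_[p]) ^ b) * (sv p b (shf D) : ℚ_[p])) := by ring
    _ = -(sv p b (shf D) : ℚ_[p]) := by rw [h2, one_mul]

theorem Fh_sg (hb : 1 ≤ b) (hw : rt i j w = b) (ω : Dg (p ^ b) × (F × M)) :
    Fh h b (sg w b ω) = gs w h b (ω.1 0) • Fh h b ω := by
  unfold Fh sg
  rw [smul_smul, smul_smul, gs_key hb hw]

/-- the group element of `T` steps -/
def tau (w : AZ n) {i j : Fin n} (h : i ≠ j) (b : ℕ) : ℕ → Dg (p ^ b) → SLn p n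
  | 0, _ => 1
  | T + 1, D => gs w h b (D T) * tau w h b T D

theorem sg_iter (T : ℕ) (ω : Dg (p ^ b) × (F × M)) :
    (sg w b)^[T] ω = (shf^[T] ω.1, dgh p n w ^ T • ω.2) := by
  induction T with
  | zero => simp
  | succ T ih =>
    rw [Function.iterate_succ_apply', ih, Function.iterate_succ_apply', pow_succ', mul_smul]
    rfl

theorem sg_iter_zero (T : ℕ) (ω : Dg (p ^ b) × (F × M)) : ((sg w b)^[T] ω).1 0 = ω.1 T := by
  rw [sg_iter]
  change (shf^[T] ω.1) 0 = _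
  rw [shf_iter, add_zero]

theorem Fh_iter (hb : 1 ≤ b) (hw : rt i j w = b) (T : ℕ) (ω : Dg (p ^ b) × (F × M)) :
    Fh h b ((sg w b)^[T] ω) = tau w h b T ω.1 • Fh h b ω := by
  induction T with
  | zero => simp [tau]
  | succ T ih =>
    rw [Function.iterate_succ_apply', Fh_sg hb hw, ih, sg_iter_zero, smul_smul]
    rfl

theorem tau_eq (hb : 1 ≤ b) (hw : rt i j w = b) (T : ℕ) (D : Dg (p ^ b)) :
    tau w h b T D = EE h (-(sv p b (shf^[T] D) : ℚ_[p])) * dgh p n w ^ T *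
      EE h (sv p b D : ℚ_[p]) := by
  induction T with
  | zero =>
    simp only [tau, Function.iterate_zero, id_eq, pow_zero, mul_one]
    rw [← EE_add, neg_add_cancel]
    simp
  | succ T ih =>
    have h1 := gs_key (h := h) hb hw (shf^[T] D)
    rw [shf_iter, add_zero] at h1
    simp only [tau]
    rw [ih, ← mul_assoc, ← mul_assoc, h1, Function.iterate_succ_apply', pow_succ']
    group

theorem ada_cl (l : ℕ) : ∃ l', ∀ (s : Fin (p ^ b)) (f f' : F), cl p n l' f = cl p n l' f' →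
    cl p n l (gs w h b s • f) = cl p n l (gs w h b s • f') := by
  choose m hm using fun s : Fin (p ^ b) => KM_conj (gs w h b s) l
  refine ⟨Finset.univ.sup m, fun s f f' hf => ?_⟩
  obtain ⟨k, hk, rfl⟩ := cl_eq.1 hf
  refine cl_eq.2 ⟨gs w h b s * k * (gs w h b s)⁻¹,
    hm s k (KM_anti (Finset.le_sup (Finset.mem_univ s)) hk), ?_⟩
  rw [smul_smul, smul_smul]
  congr 1
  group

theorem al_gs (B : Base Γ F) : ∃ l0, ∀ (s : Fin (p ^ b)) (f f' : F), cl p n l0 f = cl p n l0 f' →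
    B.al (gs w h b s) f' = B.al (gs w h b s) f := by
  choose m hm using fun s : Fin (p ^ b) => KM_conj (gs w h b s) 2
  refine ⟨max 2 (Finset.univ.sup m), fun s f f' hf => ?_⟩
  obtain ⟨k, hk, rfl⟩ := cl_eq.1 hf
  exact al_conj B (KM_anti (le_max_left _ _) hk)
    (hm s k (KM_anti ((Finset.le_sup (Finset.mem_univ s)).trans (le_max_right _ _)) hk)) f

theorem same_cl (S : Sus Γ F M) (hb : 1 ≤ b) (hw : rt i j w = b) (T l : ℕ) :
    ∃ l', ∀ ω ω' : Dg (p ^ b) × (F × M),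
      (∀ t < T, ω.1 t = ω'.1 t) → cl p n l' (Fh h b ω).1 = cl p n l' (Fh h b ω').1 →
      cl p n l (Fh h b ((sg w b)^[T] ω)).1 = cl p n l (Fh h b ((sg w b)^[T] ω')).1 := by
  induction T generalizing l with
  | zero => exact ⟨l, fun ω ω' _ h => h⟩
  | succ T ih =>
    obtain ⟨l1, h1⟩ := ada_cl (p := p) (w := w) (h := h) (b := b) (F := F) l
    obtain ⟨l2, h2⟩ := ih l1
    refine ⟨l2, fun ω ω' hd hx => ?_⟩
    rw [Function.iterate_succ_apply', Function.iterate_succ_apply', Fh_sg hb hw, Fh_sg hb hw,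
      sg_iter_zero, sg_iter_zero, hd T (Nat.lt_succ_self T), S.fst_smul, S.fst_smul]
    exact h1 _ _ _ (h2 ω ω' (fun t ht => hd t (by omega)) hx)

/-- the difference of the fibre coordinates -/
def zz (S : Sus Γ F M) {i j : Fin n} (h : i ≠ j) (b : ℕ) (ω ω' : Dg (p ^ b) × (F × M)) :
    S.V.κ → ℝ := fun k => S.V.ψ k (Fh h b ω').2 - S.V.ψ k (Fh h b ω).2

theorem near_raw (S : Sus Γ F M) (hb : 1 ≤ b) (hw : rt i j w = b) : ∃ K : ℝ, 1 ≤ K ∧
    ∀ T : ℕ, ∃ l, ∀ ω ω' : Dg (p ^ b) × (F × M), (∀ t < T, ω.1 t = ω'.1 t) →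
      cl p n l (Fh h b ω).1 = cl p n l (Fh h b ω').1 →
      vn (zz S h b ((sg w b)^[T] ω) ((sg w b)^[T] ω')) ≤ K ^ T * vn (zz S h b ω ω') ∧
      vn (zz S h b ((sg w b)^[T] ω) ((sg w b)^[T] ω') -
        S.C (tau w h b T ω.1) (Fh h b ω) *ᵥ zz S h b ω ω') ≤
        ((T : ℝ) + 1) * K ^ (2 * T + 1) * vn (zz S h b ω ω') ^ 2 := by
  choose Kg hKg1 hKg using step_const S
  set K : ℝ := Kg 1 + ∑ s : Fin (p ^ b), Kg (gs w h b s) with hK
  have hs0 : 0 ≤ ∑ s : Fin (p ^ b), Kg (gs w h b s) :=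
    Finset.sum_nonneg fun s _ => le_trans zero_le_one (hKg1 _)
  have hK1 : 1 ≤ K := by linarith [hKg1 1]
  have hKs : ∀ s, Kg (gs w h b s) ≤ K := by
    intro s
    have := Finset.single_le_sum (f := fun s : Fin (p ^ b) => Kg (gs w h b s))
      (fun s _ => le_trans zero_le_one (hKg1 _)) (Finset.mem_univ s)
    have h2 := hKg1 (1 : SLn p n)
    linarith
  refine ⟨K, hK1, fun T => ?_⟩
  obtain ⟨l0, hl0⟩ := al_gs (p := p) (w := w) (h := h) (b := b) S.B
  induction T with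
  | zero =>
    refine ⟨0, fun ω ω' _ _ => ?_⟩
    simp only [Function.iterate_zero, id_eq, pow_zero, one_mul, le_refl, true_and]
    have h1 := (hKg 1 (Fh h b ω).1 (Fh h b ω).2 (Fh h b ω').2).2.1
    have h2 : S.B.al 1 (Fh h b ω).1 = 1 := S.B.al_K 1 (one_mem _) _
    rw [h2] at h1
    simp only [one_smul] at h1
    unfold Sus.C
    simp only [tau]
    rw [h2]
    refine h1.trans ?_
    rw [mul_zero, zero_add, pow_one, Nat.cast_zero, zero_add, one_mul]
    exact mul_le_mul_of_nonneg_right (by linarith) (by positivity)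
  | succ T ih =>
    obtain ⟨l1, h1⟩ := ih
    obtain ⟨l2, h2⟩ := same_cl (h := h) S hb hw T l0
    refine ⟨max l1 l2, fun ω ω' hd hx => ?_⟩
    obtain ⟨a1, a2⟩ := h1 ω ω' (fun t ht => hd t (by omega)) (cl_anti (le_max_left _ _) hx)
    have a3 := h2 ω ω' (fun t ht => hd t (by omega)) (cl_anti (le_max_right _ _) hx)
    set v := (sg w b)^[T] ω with hv
    set v' := (sg w b)^[T] ω' with hv'
    have e0 : v.1 0 = ω.1 T := sg_iter_zero T ω
    have e0' : v'.1 0 = ω.1 T := by rw [hv', sg_iter_zero, hd T (Nat.lt_succ_self T)]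
    have e1 : (sg w b)^[T + 1] ω = sg w b v := Function.iterate_succ_apply' _ _ _
    have e1' : (sg w b)^[T + 1] ω' = sg w b v' := Function.iterate_succ_apply' _ _ _
    have e2 : (Fh h b (sg w b v)).2 = S.B.al (gs w h b (ω.1 T)) (Fh h b v).1 • (Fh h b v).2 := by
      rw [Fh_sg hb hw, e0, S.snd_smul]
    have e2' : (Fh h b (sg w b v')).2 =
        S.B.al (gs w h b (ω.1 T)) (Fh h b v).1 • (Fh h b v').2 := by
      rw [Fh_sg hb hw, e0', S.snd_smul, hl0 _ _ _ a3]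
    obtain ⟨b1, b2, b3⟩ := hKg (gs w h b (ω.1 T)) (Fh h b v).1 (Fh h b v).2 (Fh h b v').2
    have e3 : zz S h b (sg w b v) (sg w b v') = fun k =>
        S.V.ψ k (S.B.al (gs w h b (ω.1 T)) (Fh h b v).1 • (Fh h b v').2) -
          S.V.ψ k (S.B.al (gs w h b (ω.1 T)) (Fh h b v).1 • (Fh h b v).2) := by
      unfold zz
      rw [e2, e2']
    rw [e1, e1', e3]
    set z' : S.V.κ → ℝ := fun k =>
        S.V.ψ k (S.B.al (gs w h b (ω.1 T)) (Fh h b v).1 • (Fh h b v').2) -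
          S.V.ψ k (S.B.al (gs w h b (ω.1 T)) (Fh h b v).1 • (Fh h b v).2) with hz'
    set zT : S.V.κ → ℝ := zz S h b v v' with hzT
    have hzT' : (fun k => S.V.ψ k (Fh h b v').2 - S.V.ψ k (Fh h b v).2) = zT := rfl
    rw [hzT'] at b1 b2
    set z0 : S.V.κ → ℝ := zz S h b ω ω' with hz0
    set A : Matrix S.V.κ S.V.κ ℝ := S.V.J (S.B.al (gs w h b (ω.1 T)) (Fh h b v).1) (Fh h b v).2
      with hA
    have hK0 : 0 ≤ K := by linarith
    have n0 := vn_nonneg z0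
    have nT := vn_nonneg zT
    have c1 : vn z' ≤ K * vn zT := b1.trans (mul_le_mul_of_nonneg_right (hKs _) nT)
    have c2 : vn (z' - A *ᵥ zT) ≤ K * vn zT ^ 2 :=
      b2.trans (mul_le_mul_of_nonneg_right (hKs _) (by positivity))
    have c3 : fn A ≤ K := b3.trans (hKs _)
    constructor
    · calc vn z' ≤ K * vn zT := c1
        _ ≤ K * (K ^ T * vn z0) := mul_le_mul_of_nonneg_left a1 hK0
        _ = K ^ (T + 1) * vn z0 := by ring
    · have e4 : S.C (tau w h b (T + 1) ω.1) (Fh h b ω) = A * S.C (tau w h b T ω.1) (Fh h b ω) := by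
        simp only [tau]
        rw [C_mul, ← Fh_iter hb hw, ← hv]
        rfl
      have e5 : z' - S.C (tau w h b (T + 1) ω.1) (Fh h b ω) *ᵥ z0 =
          (z' - A *ᵥ zT) + A *ᵥ (zT - S.C (tau w h b T ω.1) (Fh h b ω) *ᵥ z0) := by
        rw [e4, ← Matrix.mulVec_mulVec, Matrix.mulVec_sub]
        abel
      rw [e5]
      have c4 : vn zT ^ 2 ≤ K ^ (2 * T) * vn z0 ^ 2 := by
        calc vn zT ^ 2 ≤ (K ^ T * vn z0) ^ 2 := pow_le_pow_left₀ nT a1 2
          _ = K ^ (2 * T) * vn z0 ^ 2 := by rw [mul_pow, ← pow_mul, mul_comm T 2]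
      have c5 : vn (A *ᵥ (zT - S.C (tau w h b T ω.1) (Fh h b ω) *ᵥ z0)) ≤
          K * (((T : ℝ) + 1) * K ^ (2 * T + 1) * vn z0 ^ 2) :=
        (vn_mulVec_le _ _).trans (mul_le_mul c3 a2 (vn_nonneg _) hK0)
      have c6 : K ^ (2 * T + 1) ≤ K ^ (2 * (T + 1) + 1) := pow_le_pow_right₀ hK1 (by omega)
      have c7 : K ^ (2 * T + 2) ≤ K ^ (2 * (T + 1) + 1) := pow_le_pow_right₀ hK1 (by omega)
      have c8 : 0 ≤ vn z0 ^ 2 := by positivity
      calc vn ((z' - A *ᵥ zT) + A *ᵥ (zT - S.C (tau w h b T ω.1) (Fh h b ω) *ᵥ z0))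
          ≤ K * (K ^ (2 * T) * vn z0 ^ 2) + K * (((T : ℝ) + 1) * K ^ (2 * T + 1) * vn z0 ^ 2) :=
            (vn_add_le _ _).trans (add_le_add (c2.trans (mul_le_mul_of_nonneg_left c4 hK0)) c5)
        _ = K ^ (2 * T + 1) * vn z0 ^ 2 + ((T : ℝ) + 1) * (K ^ (2 * T + 2) * vn z0 ^ 2) := by ring
        _ ≤ K ^ (2 * (T + 1) + 1) * vn z0 ^ 2 +
            ((T : ℝ) + 1) * (K ^ (2 * (T + 1) + 1) * vn z0 ^ 2) := by
          apply add_le_add (mul_le_mul_of_nonneg_right c6 c8)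
          exact mul_le_mul_of_nonneg_left (mul_le_mul_of_nonneg_right c7 c8) (by positivity)
        _ = (((T + 1 : ℕ) : ℝ) + 1) * K ^ (2 * (T + 1) + 1) * vn z0 ^ 2 := by
          push_cast
          ring

end

end Pool.Agent.H53.IV
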