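import Pool.Agent.H53.IV.Sys

/-!
MP_d9606f_gt, full answer, part (S4), invariance principle (helper53).  The law of the position given
the first digit is the law of the position.
-/

set_option autoImplicit false
set_option linter.unusedSectionVars false

open MeasureTheory Filter Matrix
open scoped Topology ENNReal
open Pool.Agent.H73.PZ
open Pool.Agent.H23.DM
open Pool.Agent.H67.LX

namespace Pool.Agent.H53.IV

noncomputable section

/-- from the good levels to the level zero -/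
theorem level_limit {Ω : Type} [MeasurableSpace Ω] {P : Measure Ω} [IsProbabilityMeasure P]
    {g : Ω → ℝ} (hg : Measurable g) (A A' : Set Ω) (r : ℝ)
    (h : ∀ t, P {ω | g ω = t} = 0 →
      P.real (A ∩ {ω | t < g ω}) = P.real (A' ∩ {ω | t < g ω}) / r) :
    P.real (A ∩ {ω | 0 < g ω}) = P.real (A' ∩ {ω | 0 < g ω}) / r := by
  have hc : Set.Countable {t : ℝ | 0 < P {ω | g ω = t}} :=
    Measure.countable_meas_level_set_pos hg
  have hd : Dense {t : ℝ | 0 < P {ω | g ω = t}}ᶜ := hc.dense_compl ℝ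
  obtain ⟨u, hu1, hu2, hu3⟩ := hd.exists_seq_strictAnti_tendsto 0
  have hun : ∀ B : Set Ω, Tendsto (fun k => P.real (B ∩ {ω | u k < g ω})) atTop
      (𝓝 (P.real (B ∩ {ω | 0 < g ω}))) := by
    intro B
    have hmono : Monotone fun k => B ∩ {ω | u k < g ω} := by
      intro k l hkl ω hω
      refine ⟨hω.1, ?_⟩
      have h1 : u l ≤ u k := hu1.antitone hkl
      have h2 : u k < g ω := hω.2
      exact lt_of_le_of_lt h1 h2
    have hU : (⋃ k, B ∩ {ω | u k < g ω}) = B ∩ {ω | 0 < g ω} := by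
      ext ω
      simp only [Set.mem_iUnion, Set.mem_inter_iff, Set.mem_ofPred_eq]
      constructor
      · rintro ⟨k, h1, h2⟩
        exact ⟨h1, lt_trans (hu2 k).1 h2⟩
      · rintro ⟨h1, h2⟩
        obtain ⟨k, hk⟩ := (hu3.eventually (gt_mem_nhds h2)).exists
        exact ⟨k, h1, hk⟩
    have h1 := tendsto_measure_iUnion_atTop (μ := P) hmono
    rw [hU] at h1
    exact (ENNReal.tendsto_toReal (measure_ne_top _ _)).comp h1
  refine tendsto_nhds_unique (hun A) ?_
  refine ((hun A').div_const r).congr fun k => ?_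
  refine (h (u k) ?_).symm
  have := (hu2 k).2
  simp only [Set.mem_compl_iff, Set.mem_ofPred_eq, not_lt, nonpos_iff_eq_zero] at this
  exact this

theorem ennreal_of_real {x y : ℝ≥0∞} {q : ℕ} (hx : x ≠ ∞) (hy : y ≠ ∞)
    (h : x.toReal = y.toReal / (q : ℝ)) (hq : q ≠ 0) : x = (q : ℝ≥0∞)⁻¹ * y := by
  have h1 : ((q : ℝ≥0∞)⁻¹ * y) ≠ ∞ :=
    ENNReal.mul_ne_top (ENNReal.inv_ne_top.2 (by exact_mod_cast hq)) hy
  rw [← ENNReal.toReal_eq_toReal_iff' hx h1, h, ENNReal.toReal_mul, ENNReal.toReal_inv,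
    ENNReal.toReal_natCast, div_eq_inv_mul]

variable {p : ℕ} [Fact p.Prime] {n : ℕ} {Γ : Subgroup (SLn p n)} {F M : Type}
    [TopologicalSpace F] [CompactSpace F] [T2Space F] [SecondCountableTopology F]
    [MeasurableSpace F] [BorelSpace F] [MulAction (SLn p n) F]
    [TopologicalSpace M] [CompactSpace M] [T2Space M] [SecondCountableTopology M]
    [MeasurableSpace M] [BorelSpace M] [MulAction Γ M]
    [MulAction (SLn p n) (F × M)] [MulAction (AZ n) (F × M)]
    {w : AZ n} {i j : Fin n} {h : i ≠ j} {b : ℕ}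

theorem indep_open (S : Sus Γ F M) {μ : Measure (F × M)} [IsProbabilityMeasure μ]
    (hA : S.AInv μ) (hov : S.OvH μ) (hu : S.Upp μ w) (hb : 1 ≤ b) (hw : rt i j w = b)
    {V : Set (S.V.κ → ℝ)} (hV : IsOpen V) (l : ℕ) (c : Cl p n F l) (s : Fin (p ^ b)) :
    ((PD (p ^ b)).prod μ).real (({ω | ω.1 0 = s} ∩ {ω | cl p n l (Fh h b ω).1 = c}) ∩
      {ω | (fun k => S.V.ψ k (Fh h b ω).2) ∈ V}) =
    ((PD (p ^ b)).prod μ).real ({ω | cl p n l (Fh h b ω).1 = c} ∩
      {ω | (fun k => S.V.ψ k (Fh h b ω).2) ∈ V}) / ((p ^ b : ℕ) : ℝ) := by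
  have mF := measurable_Fh (h := h) S hb
  have mψ : Measurable fun ω : Dg (p ^ b) × (F × M) => fun k => S.V.ψ k (Fh h b ω).2 :=
    measurable_pi_iff.2 fun k => (S.V.ψ_cont k).measurable.comp (measurable_snd.comp mF)
  by_cases hne : (Vᶜ).Nonempty
  · set Φ : (S.V.κ → ℝ) → ℝ := fun y => Metric.infDist y Vᶜ with hΦ
    have hL : LipschitzWith 1 Φ := Metric.lipschitz_infDist_pt Vᶜ
    have hVΦ : ∀ y, y ∈ V ↔ 0 < Φ y := by
      intro y
      rw [hΦ]
      simp only
      rw [← hV.isClosed_compl.notMem_iff_infDist_pos hne, Set.mem_compl_iff, not_not]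
    have e1 : {ω : Dg (p ^ b) × (F × M) | (fun k => S.V.ψ k (Fh h b ω).2) ∈ V} =
        {ω | 0 < Φ (fun k => S.V.ψ k (Fh h b ω).2)} := by
      ext ω
      exact hVΦ _
    rw [e1]
    refine level_limit (g := fun ω => Φ (fun k => S.V.ψ k (Fh h b ω).2))
      (hL.continuous.measurable.comp mψ) _ _ _ fun t ht => ?_
    rw [Set.inter_assoc]
    exact indep_conc S hA hov hu hb hw hL ht l c s
  · have hV' : V = Set.univ := by
      rw [Set.not_nonempty_iff_eq_empty, Set.compl_empty_iff] at hne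
      exact hne
    have h1 := indep_conc (h := h) S hA hov hu hb hw (Φ := fun _ => 0)
      ((LipschitzWith.const 0).weaken zero_le_one)
      (t := -1) (by
        have : {ω : Dg (p ^ b) × (F × M) | (0 : ℝ) = -1} = ∅ := by
          ext ω
          simp
        rw [this, measure_empty]) l c s
    rw [hV']
    have e2 : {ω : Dg (p ^ b) × (F × M) | (-1 : ℝ) < 0} = Set.univ := by
      ext ω
      simp
    rw [e2] at h1
    simp only [Set.inter_univ, Set.mem_univ, Set.ofPred_true] at h1 ⊢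
    exact h1

theorem law_eq (S : Sus Γ F M) {μ : Measure (F × M)} [IsProbabilityMeasure μ]
    (hA : S.AInv μ) (hov : S.OvH μ) (hu : S.Upp μ w) (hb : 1 ≤ b) (hw : rt i j w = b)
    (s : Fin (p ^ b)) :
    (((PD (p ^ b)).prod μ).restrict {ω | ω.1 0 = s}).map (Fh h b) =
      ((p ^ b : ℕ) : ℝ≥0∞)⁻¹ • ((PD (p ^ b)).prod μ).map (Fh h b) := by
  have mF := measurable_Fh (h := h) S hb
  have hq : p ^ b ≠ 0 := pow_ne_zero _ (Fact.out : p.Prime).ne_zero
  have m0 : Measurable fun ω : Dg (p ^ b) × (F × M) => ω.1 0 :=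
    (measurable_pi_apply 0).comp measurable_fst
  have mS : MeasurableSet {ω : Dg (p ^ b) × (F × M) | ω.1 0 = s} :=
    m0 (measurableSet_singleton s)
  set P := (PD (p ^ b)).prod μ with hP
  -- step 2
  have step2 : ∀ (l : ℕ) (c : Cl p n F l) (A : Set M), MeasurableSet A →
      P (({ω | ω.1 0 = s} ∩ {ω | cl p n l (Fh h b ω).1 = c}) ∩ {ω | (Fh h b ω).2 ∈ A}) =
        ((p ^ b : ℕ) : ℝ≥0∞)⁻¹ * P ({ω | cl p n l (Fh h b ω).1 = c} ∩ {ω | (Fh h b ω).2 ∈ A}) := by
    intro l c A hAm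
    have m2 : Measurable fun ω : Dg (p ^ b) × (F × M) => (Fh h b ω).2 := measurable_snd.comp mF
    have key : (P.restrict ({ω | ω.1 0 = s} ∩ {ω | cl p n l (Fh h b ω).1 = c})).map
        (fun ω => (Fh h b ω).2) = ((p ^ b : ℕ) : ℝ≥0∞)⁻¹ •
        (P.restrict {ω | cl p n l (Fh h b ω).1 = c}).map (fun ω => (Fh h b ω).2) := by
      have hop : ∀ U : Set M, IsOpen U →
          (P.restrict ({ω | ω.1 0 = s} ∩ {ω | cl p n l (Fh h b ω).1 = c})).map
            (fun ω => (Fh h b ω).2) U = (((p ^ b : ℕ) : ℝ≥0∞)⁻¹ •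
            (P.restrict {ω | cl p n l (Fh h b ω).1 = c}).map (fun ω => (Fh h b ω).2)) U := by
        intro U hU
        have hψc : Continuous fun m : M => fun k => S.V.ψ k m := continuous_pi S.V.ψ_cont
        have hψi : Function.Injective fun m : M => fun k => S.V.ψ k m := fun m m' hmm =>
          S.V.ψ_sep m m' fun k => congrFun hmm k
        obtain ⟨V, hV, rfl⟩ := (hψc.isClosedEmbedding hψi).isInducing.isOpen_iff.1 hU
        have h1 := indep_open (h := h) S hA hov hu hb hw hV l c s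
        rw [Measure.smul_apply, Measure.map_apply m2 hU.measurableSet,
          Measure.map_apply m2 hU.measurableSet, Measure.restrict_apply (m2 hU.measurableSet),
          Measure.restrict_apply (m2 hU.measurableSet), smul_eq_mul]
        refine ennreal_of_real (measure_ne_top _ _) (measure_ne_top _ _) ?_ hq
        have e1 : (fun ω : Dg (p ^ b) × (F × M) => (Fh h b ω).2) ⁻¹'
            ((fun m : M => fun k => S.V.ψ k m) ⁻¹' V) ∩
            ({ω | ω.1 0 = s} ∩ {ω | cl p n l (Fh h b ω).1 = c}) =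
            ({ω | ω.1 0 = s} ∩ {ω | cl p n l (Fh h b ω).1 = c}) ∩
            {ω | (fun k => S.V.ψ k (Fh h b ω).2) ∈ V} := Set.inter_comm _ _
        have e2 : (fun ω : Dg (p ^ b) × (F × M) => (Fh h b ω).2) ⁻¹'
            ((fun m : M => fun k => S.V.ψ k m) ⁻¹' V) ∩ {ω | cl p n l (Fh h b ω).1 = c} =
            {ω | cl p n l (Fh h b ω).1 = c} ∩
            {ω | (fun k => S.V.ψ k (Fh h b ω).2) ∈ V} := Set.inter_comm _ _
        rw [e1, e2]
        exact h1
      exact ext_of_generate_finite _ (BorelSpace.measurable_eq (α := M)) isPiSystem_isOpen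
        (fun U hU => hop U hU) (hop _ isOpen_univ)
    have h1 := congrArg (fun m : Measure M => m A) key
    simp only [Measure.smul_apply, smul_eq_mul] at h1
    rw [Measure.map_apply m2 hAm, Measure.map_apply m2 hAm, Measure.restrict_apply (m2 hAm),
      Measure.restrict_apply (m2 hAm)] at h1
    rw [Set.inter_comm, Set.inter_comm {ω : Dg (p ^ b) × (F × M) | cl p n l (Fh h b ω).1 = c}]
    exact h1
  -- step 3
  have step3 : ∀ (B : Set F) (A : Set M), MeasurableSet B → MeasurableSet A →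
      P (({ω | ω.1 0 = s} ∩ {ω | (Fh h b ω).2 ∈ A}) ∩ {ω | (Fh h b ω).1 ∈ B}) =
        ((p ^ b : ℕ) : ℝ≥0∞)⁻¹ * P ({ω | (Fh h b ω).2 ∈ A} ∩ {ω | (Fh h b ω).1 ∈ B}) := by
    intro B A hB hAm
    have m1 : Measurable fun ω : Dg (p ^ b) × (F × M) => (Fh h b ω).1 := measurable_fst.comp mF
    have key : (P.restrict ({ω | ω.1 0 = s} ∩ {ω | (Fh h b ω).2 ∈ A})).map
        (fun ω => (Fh h b ω).1) = ((p ^ b : ℕ) : ℝ≥0∞)⁻¹ •
        (P.restrict {ω | (Fh h b ω).2 ∈ A}).map (fun ω => (Fh h b ω).1) := by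
      refine ext_cl S.B _ _ fun l c => ?_
      have mc : MeasurableSet (cl p n l ⁻¹' {c}) := (isOpen_fibre S.B l c).measurableSet
      rw [Measure.smul_apply, Measure.map_apply m1 mc, Measure.map_apply m1 mc,
        Measure.restrict_apply (m1 mc), Measure.restrict_apply (m1 mc), smul_eq_mul]
      have h1 := step2 l c A hAm
      have e1 : (fun ω : Dg (p ^ b) × (F × M) => (Fh h b ω).1) ⁻¹' (cl p n l ⁻¹' {c}) ∩
          ({ω | ω.1 0 = s} ∩ {ω | (Fh h b ω).2 ∈ A}) =
          ({ω | ω.1 0 = s} ∩ {ω | cl p n l (Fh h b ω).1 = c}) ∩ {ω | (Fh h b ω).2 ∈ A} := by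
        ext ω
        simp only [Set.mem_inter_iff, Set.mem_preimage, Set.mem_singleton_iff, Set.mem_ofPred_eq]
        tauto
      have e2 : (fun ω : Dg (p ^ b) × (F × M) => (Fh h b ω).1) ⁻¹' (cl p n l ⁻¹' {c}) ∩
          {ω | (Fh h b ω).2 ∈ A} =
          {ω | cl p n l (Fh h b ω).1 = c} ∩ {ω | (Fh h b ω).2 ∈ A} := by
        ext ω
        simp only [Set.mem_inter_iff, Set.mem_preimage, Set.mem_singleton_iff, Set.mem_ofPred_eq]
      rw [e1, e2]
      exact h1
    have h1 := congrArg (fun m : Measure F => m B) key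
    simp only [Measure.smul_apply, smul_eq_mul] at h1
    rw [Measure.map_apply m1 hB, Measure.map_apply m1 hB, Measure.restrict_apply (m1 hB),
      Measure.restrict_apply (m1 hB)] at h1
    rw [Set.inter_comm, Set.inter_comm {ω : Dg (p ^ b) × (F × M) | (Fh h b ω).2 ∈ A}]
    exact h1
  -- step 4
  have : IsFiniteMeasure ((P.restrict {ω | ω.1 0 = s}).map (Fh h b)) :=
    Measure.isFiniteMeasure_map _ _
  refine Measure.ext_prod fun {B A} hB hAm => ?_
  rw [Measure.smul_apply, Measure.map_apply mF (hB.prod hAm), Measure.map_apply mF (hB.prod hAm),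
    Measure.restrict_apply (mF (hB.prod hAm)), smul_eq_mul]
  have h1 := step3 B A hB hAm
  have e1 : Fh h b ⁻¹' (B ×ˢ A) ∩ {ω : Dg (p ^ b) × (F × M) | ω.1 0 = s} =
      ({ω | ω.1 0 = s} ∩ {ω | (Fh h b ω).2 ∈ A}) ∩ {ω | (Fh h b ω).1 ∈ B} := by
    ext ω
    simp only [Set.mem_inter_iff, Set.mem_preimage, Set.mem_prod, Set.mem_ofPred_eq]
    tauto
  have e2 : (Fh h b ⁻¹' (B ×ˢ A) : Set (Dg (p ^ b) × (F × M))) =
      {ω | (Fh h b ω).2 ∈ A} ∩ {ω | (Fh h b ω).1 ∈ B} := by
    ext ω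
    simp only [Set.mem_inter_iff, Set.mem_preimage, Set.mem_prod, Set.mem_ofPred_eq]
    tauto
  rw [e1, e2]
  exact h1

end

end Pool.Agent.H53.IV
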