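import Pool.Agent.H53.IV.Ineq

/-!
MP_d9606f_gt, full answer, part (S4), invariance principle (helper53).  The limit of the entropy
inequality: the digit is independent of `(X.xi l, Φ (ψ) > t)`.
-/

set_option autoImplicit false

set_option linter.unusedSectionVars false

namespace Pool.Agent.H53.IV

open H88.ENT MeasureTheory Filter Topology

noncomputable section

variable {Ω : Type} [MeasurableSpace Ω] {P : Measure Ω} {q : ℕ} {κ : Type} [Fintype κ]
  [DecidableEq κ] [IsProbabilityMeasure P]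

theorem tendsto_small {f : Ω → ℝ} (hf : Measurable f) (h0 : ∀ w, 0 ≤ f w)
    (hz : P {w | f w = 0} = 0) {c : ℝ} (hc : 0 ≤ c) :
    Tendsto (fun T : ℕ => P.real {w | f w ≤ c * Real.exp (-T)}) atTop (𝓝 0) := by
  have hanti : Antitone fun T : ℕ => {w | f w ≤ c * Real.exp (-T)} := by
    intro T T' hTT w hw
    have h1 : Real.exp (-(T' : ℝ)) ≤ Real.exp (-(T : ℝ)) := by
      apply Real.exp_le_exp.2
      have : (T : ℝ) ≤ T' := by exact_mod_cast hTT
      linarith
    exact le_trans hw (mul_le_mul_of_nonneg_left h1 hc)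
  have hlim : Tendsto (fun T : ℕ => c * Real.exp (-(T : ℝ))) atTop (𝓝 0) := by
    have h1 : Tendsto (fun T : ℕ => Real.exp (-(T : ℝ))) atTop (𝓝 0) :=
      Real.tendsto_exp_neg_atTop_nhds_zero.comp tendsto_natCast_atTop_atTop
    simpa using h1.const_mul c
  have hint : (⋂ T : ℕ, {w | f w ≤ c * Real.exp (-T)}) = {w | f w = 0} := by
    ext w
    simp only [Set.mem_iInter, Set.mem_ofPred_eq]
    constructor
    · intro h
      exact le_antisymm (ge_of_tendsto' hlim h) (h0 w)
    · intro h T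
      rw [h]
      positivity
  have hm : ∀ T : ℕ, MeasurableSet {w | f w ≤ c * Real.exp (-T)} := fun T =>
    measurableSet_le hf measurable_const
  have h1 := tendsto_measure_iInter_atTop (μ := P) (fun T => (hm T).nullMeasurableSet) hanti
    ⟨0, measure_ne_top _ _⟩
  rw [hint, hz] at h1
  have h2 := (ENNReal.tendsto_toReal (ENNReal.zero_ne_top)).comp h1
  rw [ENNReal.toReal_zero] at h2
  exact h2

namespace ZSys

variable (E : ZSys Ω P q κ)

theorem log_card_le {T : ℕ} {θ : ℝ} (hθ : 0 ≤ θ) :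
    Real.log (Fintype.card (κ → Fin (2 * E.B * ⌈Real.exp (θ * T)⌉₊ + 1))) ≤
      Fintype.card κ * (θ * T + Real.log (4 * E.B + 1)) := by
  rw [Fintype.card_fun, Fintype.card_fin]
  push_cast
  rw [Real.log_pow]
  apply mul_le_mul_of_nonneg_left _ (Nat.cast_nonneg _)
  set g := Real.exp (θ * T) with hg
  have hg1 : 1 ≤ g := Real.one_le_exp (mul_nonneg hθ (Nat.cast_nonneg T))
  have hB : (0 : ℝ) ≤ E.B := Nat.cast_nonneg _
  have h1 : (⌈g⌉₊ : ℝ) ≤ g + 1 := (Nat.ceil_lt_add_one (by linarith)).le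
  have h2 : 2 * (E.B : ℝ) * ⌈g⌉₊ + 1 ≤ g * (4 * E.B + 1) := by nlinarith
  have h3 : (0 : ℝ) < 2 * (E.B : ℝ) * ⌈g⌉₊ + 1 := by positivity
  calc Real.log (2 * (E.B : ℝ) * ⌈g⌉₊ + 1) ≤ Real.log (g * (4 * E.B + 1)) :=
        Real.log_le_log h3 h2
    _ = θ * T + Real.log (4 * E.B + 1) := by
      rw [Real.log_mul (by positivity) (by positivity), hg, Real.log_exp]

theorem delta_le [NeZero q] {Φ : (κ → ℝ) → ℝ} (hΦ : LipschitzWith 1 Φ) {t : ℝ}
    (ht : P {w | Φ (E.ψ w) = t} = 0) (l : ℕ) :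
    Real.log q ≤ Hc P E.S0 (fun w => (E.Pt Φ t w, E.X.xi l w)) := by
  by_contra hcon
  push Not at hcon
  set δ := Real.log q - Hc P E.S0 (fun w => (E.Pt Φ t w, E.X.xi l w)) with hδ
  have hδ0 : 0 < δ := by linarith
  set θ := Real.log E.K + 2 with hθ
  have hθ0 : 0 ≤ θ := by
    have := Real.log_nonneg E.hK
    linarith
  obtain ⟨R, hR⟩ := exists_nat_gt (Fintype.card κ * θ / δ)
  have hRpos : (0 : ℝ) < R := lt_of_le_of_lt (by positivity) hR
  have hR1 : 1 ≤ R := by exact_mod_cast hRpos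
  rw [div_lt_iff₀ hδ0] at hR
  -- the error
  set η : ℕ → ℝ := fun T => R * P.real {w | Real.exp ((1 / R : ℝ) * T) < E.a T w} +
      P.real {w | |Φ (E.ψ w) - t| ≤ 2 ^ R * Real.exp (-T)} with hη
  have hηlim : Tendsto η atTop (𝓝 0) := by
    have h1 := (E.slow (1 / R) (by positivity)).const_mul (R : ℝ)
    have hΦm : Measurable Φ := hΦ.continuous.measurable
    have h2 := tendsto_small (P := P) (f := fun w => |Φ (E.ψ w) - t|)
      (by
        have h6 : Measurable fun w => Φ (E.ψ w) - t := (hΦm.comp E.meas_psi).sub_const t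
        exact h6.abs) (fun w => abs_nonneg _) (by
        rw [← ht]
        congr 1
        ext w
        simp [sub_eq_zero]) (c := 2 ^ R) (by positivity)
    have h3 := h1.add h2
    simpa [hη] using h3
  have hglim : Tendsto (fun T => Real.binEntropy (η T) + η T * Real.log 2) atTop (𝓝 0) := by
    have h1 : Tendsto (fun x : ℝ => Real.binEntropy x + x * Real.log 2) (𝓝 0) (𝓝 0) := by
      have h2 : Continuous fun x : ℝ => Real.binEntropy x + x * Real.log 2 :=
        Real.binEntropy_continuous.add (continuous_id.mul continuous_const)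
      have h3 := h2.tendsto 0
      simpa using h3
    exact h1.comp hηlim
  have hexp : Tendsto (fun T : ℕ => (2 : ℝ) ^ R * Real.exp (-(T : ℝ))) atTop (𝓝 0) := by
    have h1 : Tendsto (fun T : ℕ => Real.exp (-(T : ℝ))) atTop (𝓝 0) :=
      Real.tendsto_exp_neg_atTop_nhds_zero.comp tendsto_natCast_atTop_atTop
    simpa using h1.const_mul ((2 : ℝ) ^ R)
  have hev : ∀ᶠ T : ℕ in atTop, (R : ℝ) * δ ≤ Fintype.card κ * (θ + Real.log (4 * E.B + 1) / T) +
      R * (Real.binEntropy (η T) + η T * Real.log 2) := by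
    filter_upwards [eventually_ge_atTop 1, hexp.eventually (ge_mem_nhds (show (0 : ℝ) < 1 by norm_num)),
      hηlim.eventually (ge_mem_nhds (show (0 : ℝ) < 1 / 2 by norm_num))] with T hT h1 h2
    have hTpos : (0 : ℝ) < T := by exact_mod_cast hT
    have h3 := E.main_ineq hΦ t l hR1 hT h1 (N := ⌈Real.exp (θ * T)⌉₊) (Nat.le_ceil _)
      (η := η T) le_rfl h2
    have h4 := E.log_card_le (T := T) hθ0
    push_cast at h3
    have h5 : (R : ℝ) * T * δ ≤ Fintype.card κ * (θ * T + Real.log (4 * E.B + 1)) +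
        R * T * (Real.binEntropy (η T) + η T * Real.log 2) := by linarith
    have h6 : (Fintype.card κ * (θ + Real.log (4 * E.B + 1) / T) +
        R * (Real.binEntropy (η T) + η T * Real.log 2)) * T =
        Fintype.card κ * (θ * T + Real.log (4 * E.B + 1)) +
        R * T * (Real.binEntropy (η T) + η T * Real.log 2) := by
      field_simp
    have h7 : (R : ℝ) * δ * T ≤ (Fintype.card κ * (θ + Real.log (4 * E.B + 1) / T) +
        R * (Real.binEntropy (η T) + η T * Real.log 2)) * T := by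
      rw [h6]
      linarith
    exact le_of_mul_le_mul_right h7 hTpos
  have hlim : Tendsto (fun T : ℕ => Fintype.card κ * (θ + Real.log (4 * E.B + 1) / T) +
      R * (Real.binEntropy (η T) + η T * Real.log 2)) atTop
      (𝓝 (Fintype.card κ * (θ + 0) + R * 0)) := by
    have h1 : Tendsto (fun T : ℕ => Real.log (4 * E.B + 1) / T) atTop (𝓝 0) :=
      tendsto_const_div_atTop_nhds_zero_nat _
    exact ((h1.const_add θ).const_mul _).add (hglim.const_mul _)
  have hfin := ge_of_tendsto hlim hev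
  simp only [add_zero, mul_zero] at hfin
  linarith

/-- the digit is independent of the names and of the fibre coordinate -/
theorem indep [NeZero q] {Φ : (κ → ℝ) → ℝ} (hΦ : LipschitzWith 1 Φ) {t : ℝ}
    (ht : P {w | Φ (E.ψ w) = t} = 0) (l : ℕ) (c : E.X.I l) (s : Fin q) :
    P.real (E.S0 ⁻¹' {s} ∩ (E.X.xi l ⁻¹' {c} ∩ {w | t < Φ (E.ψ w)})) =
      P.real (E.X.xi l ⁻¹' {c} ∩ {w | t < Φ (E.ψ w)}) / q := by
  have hΦm : Measurable Φ := hΦ.continuous.measurable
  have mP := E.mPt hΦm t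
  have h1 := tv_le (P := P) E.mS0 (mP.prod (E.X.meas l))
  have h2 := E.delta_le hΦ ht l
  have h3 : √(Real.log (Fintype.card (Fin q)) -
      Hc P E.S0 (fun w => (E.Pt Φ t w, E.X.xi l w))) = 0 := by
    apply Real.sqrt_eq_zero_of_nonpos
    rw [Fintype.card_fin]
    linarith
  rw [h3, mul_zero] at h1
  have h4 : |P.real ((fun w => (E.S0 w, (E.Pt Φ t w, E.X.xi l w))) ⁻¹' {(s, (true, c))}) -
      P.real ((fun w => (E.Pt Φ t w, E.X.xi l w)) ⁻¹' {(true, c)}) / Fintype.card (Fin q)| ≤ 0 := by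
    refine le_trans ?_ h1
    refine le_trans ?_ (Finset.single_le_sum (f := fun a => ∑ b,
      |P.real ((fun w => (E.S0 w, (E.Pt Φ t w, E.X.xi l w))) ⁻¹' {(a, b)}) -
      P.real ((fun w => (E.Pt Φ t w, E.X.xi l w)) ⁻¹' {b}) / Fintype.card (Fin q)|)
      (fun a _ => Finset.sum_nonneg fun b _ => abs_nonneg _) (Finset.mem_univ s))
    exact Finset.single_le_sum (f := fun b =>
      |P.real ((fun w => (E.S0 w, (E.Pt Φ t w, E.X.xi l w))) ⁻¹' {(s, b)}) -
      P.real ((fun w => (E.Pt Φ t w, E.X.xi l w)) ⁻¹' {b}) / Fintype.card (Fin q)|)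
      (fun b _ => abs_nonneg _) (Finset.mem_univ (true, c))
  have h5 := sub_eq_zero.1 (abs_eq_zero.1 (le_antisymm h4 (abs_nonneg _)))
  have e1 : (fun w => (E.S0 w, (E.Pt Φ t w, E.X.xi l w))) ⁻¹' {(s, (true, c))} =
      E.S0 ⁻¹' {s} ∩ (E.X.xi l ⁻¹' {c} ∩ {w | t < Φ (E.ψ w)}) := by
    ext w
    simp only [Set.mem_preimage, Set.mem_singleton_iff, Prod.mk.injEq, Set.mem_inter_iff,
      E.Pt_true, Set.mem_ofPred_eq]
    tauto
  have e2 : (fun w => (E.Pt Φ t w, E.X.xi l w)) ⁻¹' {(true, c)} =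
      E.X.xi l ⁻¹' {c} ∩ {w | t < Φ (E.ψ w)} := by
    ext w
    simp only [Set.mem_preimage, Set.mem_singleton_iff, Prod.mk.injEq, Set.mem_inter_iff,
      E.Pt_true, Set.mem_ofPred_eq]
    tauto
  rw [e1, e2, Fintype.card_fin] at h5
  exact h5

end ZSys

end

end Pool.Agent.H53.IV
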