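import Pool.Agent.H53.IV.Law

/-!
MP_d9606f_gt, full answer, part (S4), invariance principle (helper53).

`gs_inv`: the law `ν` of the position is invariant under all `gs s`.
`law_eq_mu`: `ν = μ`.
`uinv_main`: `μ` is invariant under the root group.
-/

set_option autoImplicit false
set_option linter.unusedSectionVars false

open MeasureTheory Filter Matrix
open scoped Topology ENNReal BoundedContinuousFunction
open Pool.Agent.H73.PZ
open Pool.Agent.H23.DM
open Pool.Agent.H67.LX

namespace Pool.Agent.H53.IV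

noncomputable section

variable {p : ℕ} [Fact p.Prime] {n : ℕ} {Γ : Subgroup (SLn p n)} {F M : Type}
    [TopologicalSpace F] [CompactSpace F] [T2Space F] [SecondCountableTopology F]
    [MeasurableSpace F] [BorelSpace F] [MulAction (SLn p n) F]
    [TopologicalSpace M] [CompactSpace M] [T2Space M] [SecondCountableTopology M]
    [MeasurableSpace M] [BorelSpace M] [MulAction Γ M]
    [MulAction (SLn p n) (F × M)] [MulAction (AZ n) (F × M)]
    {w : AZ n} {i j : Fin n} {h : i ≠ j} {b : ℕ}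

theorem shf_restrict (q : ℕ) [NeZero q] (s : Fin q) :
    ((PD q).restrict {D | D 0 = s}).map shf = (q : ℝ≥0∞)⁻¹ • PD q := by
  ext A hA
  have m0 : Measurable fun D : Dg q => D 0 := measurable_pi_apply 0
  have mS : MeasurableSet {D : Dg q | D 0 = s} := m0 (measurableSet_singleton s)
  rw [Measure.map_apply measurable_shf hA, Measure.restrict_apply (measurable_shf hA),
    Measure.smul_apply, smul_eq_mul]
  have e1 : shf ⁻¹' A ∩ {D : Dg q | D 0 = s} = (fun D : Dg q => (D 0, shf D)) ⁻¹' ({s} ×ˢ A) := by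
    ext D
    simp only [Set.mem_inter_iff, Set.mem_preimage, Set.mem_ofPred_eq, Set.mem_prod,
      Set.mem_singleton_iff]
    tauto
  rw [e1, (mp_split q).measure_preimage ((measurableSet_singleton s).prod hA).nullMeasurableSet,
    Measure.prod_prod, unif_singleton]

theorem sg_restrict {μ : Measure (F × M)} [IsProbabilityMeasure μ]
    (hw : Inv (dgh p n w) μ) (s : Fin (p ^ b)) :
    (((PD (p ^ b)).prod μ).restrict {ω | ω.1 0 = s}).map (sg w b) =
      ((p ^ b : ℕ) : ℝ≥0∞)⁻¹ • (PD (p ^ b)).prod μ := by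
  have e1 : {ω : Dg (p ^ b) × (F × M) | ω.1 0 = s} = {D : Dg (p ^ b) | D 0 = s} ×ˢ Set.univ := by
    ext ω
    simp
  have e2 : (sg w b : Dg (p ^ b) × (F × M) → Dg (p ^ b) × (F × M)) =
      Prod.map shf (fun x => dgh p n w • x) := rfl
  rw [e1, e2, ← Measure.restrict_prod_eq_prod_univ,
    ← Measure.map_prod_map _ _ measurable_shf hw.measurable, shf_restrict, hw.map_eq,
    Measure.prod_smul_left]

theorem gs_inv (S : Sus Γ F M) {μ : Measure (F × M)} [IsProbabilityMeasure μ]
    (hA : S.AInv μ) (hov : S.OvH μ) (hu : S.Upp μ w) (hb : 1 ≤ b) (hw : rt i j w = b)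
    (s : Fin (p ^ b)) : Inv (gs w h b s) (((PD (p ^ b)).prod μ).map (Fh h b)) := by
  have mF := measurable_Fh (h := h) S hb
  have mg := S.measurable_smul (gs w h b s)
  have msg : Measurable (sg w b : Dg (p ^ b) × (F × M) → Dg (p ^ b) × (F × M)) :=
    (measurable_shf.comp measurable_fst).prodMk
      ((S.measurable_smul (dgh p n w)).comp measurable_snd)
  have m0 : Measurable fun ω : Dg (p ^ b) × (F × M) => ω.1 0 :=
    (measurable_pi_apply 0).comp measurable_fst
  have mS : MeasurableSet {ω : Dg (p ^ b) × (F × M) | ω.1 0 = s} :=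
    m0 (measurableSet_singleton s)
  have hq : p ^ b ≠ 0 := pow_ne_zero _ (Fact.out : p.Prime).ne_zero
  set P := (PD (p ^ b)).prod μ with hP
  have h1 : (P.restrict {ω | ω.1 0 = s}).map (fun ω => Fh h b (sg w b ω)) =
      ((p ^ b : ℕ) : ℝ≥0∞)⁻¹ • P.map (Fh h b) := by
    have e1 : (fun ω : Dg (p ^ b) × (F × M) => Fh h b (sg w b ω)) = Fh h b ∘ sg w b := rfl
    rw [e1, ← Measure.map_map mF msg, sg_restrict (hA w) s, Measure.map_smul]
  have h2 : (P.restrict {ω | ω.1 0 = s}).map (fun ω => Fh h b (sg w b ω)) =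
      ((p ^ b : ℕ) : ℝ≥0∞)⁻¹ • (P.map (Fh h b)).map (fun x => gs w h b s • x) := by
    have e1 : (fun ω : Dg (p ^ b) × (F × M) => Fh h b (sg w b ω)) =ᵐ[P.restrict {ω | ω.1 0 = s}]
        (fun x => gs w h b s • x) ∘ Fh h b := by
      refine ae_restrict_of_forall_mem mS fun ω hω => ?_
      have e2 : ω.1 0 = s := hω
      change Fh h b (sg w b ω) = gs w h b s • Fh h b ω
      rw [Fh_sg hb hw, e2]
    rw [Measure.map_congr e1, ← Measure.map_map mg mF, law_eq S hA hov hu hb hw s,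
      Measure.map_smul]
  refine ⟨mg, ?_⟩
  rw [h1] at h2
  ext E hE
  have h3 := congrArg (fun m : Measure (F × M) => m E) h2
  simp only [Measure.smul_apply, smul_eq_mul] at h3
  exact ((ENNReal.mul_right_inj (ENNReal.inv_ne_zero.2 (ENNReal.natCast_ne_top _))
    (ENNReal.inv_ne_top.2 (by exact_mod_cast hq))).1 h3).symm

theorem gs_zero : (gs w h b (0 : Fin (p ^ b)) : SLn p n) = dgh p n w := by
  unfold gs
  simp

theorem pow_inv' {g : SLn p n} {X : Type} [MeasurableSpace X] [MulAction (SLn p n) X]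
    {ν : Measure X} (hg : Inv g ν) (k : ℕ) : Inv (g ^ k) ν := by
  induction k with
  | zero =>
    rw [pow_zero]
    exact Inv.one
  | succ k ih =>
    rw [pow_succ]
    exact ih.mul hg

/-- the positions at small scales -/
def Fk {i j : Fin n} (h : i ≠ j) (b k : ℕ) (ω : Dg (p ^ b) × (F × M)) : F × M :=
  (EE h (-(((p : ℚ_[p]) ^ b) ^ k * (sv p b ω.1 : ℚ_[p]))) : SLn p n) • ω.2

theorem measurable_Fk (S : Sus Γ F M) (hb : 1 ≤ b) (k : ℕ) :
    Measurable (Fk h b k : Dg (p ^ b) × (F × M) → F × M) := by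
  have h1 : Continuous (Fk h b k : Dg (p ^ b) × (F × M) → F × M) := by
    have h2 : Continuous fun ω : Dg (p ^ b) × (F × M) =>
        ((-(((p : ℚ_[p]) ^ b) ^ k * (sv p b ω.1 : ℚ_[p]))), ω.2) :=
      ((continuous_const.mul (continuous_subtype_val.comp
        ((continuous_sv p hb).comp continuous_fst))).neg).prodMk continuous_snd
    exact (continuous_EE_smul S h).comp h2
  exact h1.measurable

theorem law_Fk (S : Sus Γ F M) {μ : Measure (F × M)} [IsProbabilityMeasure μ]
    (hA : S.AInv μ) (hov : S.OvH μ) (hu : S.Upp μ w) (hb : 1 ≤ b) (hw : rt i j w = b) (k : ℕ) :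
    ((PD (p ^ b)).prod μ).map (Fk h b k) = ((PD (p ^ b)).prod μ).map (Fh h b) := by
  have mF := measurable_Fh (h := h) S hb
  have mk := measurable_Fk (h := h) S hb k
  set P := (PD (p ^ b)).prod μ with hP
  set g : SLn p n := dgh p n w ^ k with hg
  have mg := S.measurable_smul g
  have mg' := S.measurable_smul g⁻¹
  have i1 : Inv g (P.map (Fh h b)) := by
    have := gs_inv (h := h) S hA hov hu hb hw 0
    rw [gs_zero] at this
    exact pow_inv' this k
  have i2 : MeasurePreserving (fun ω : Dg (p ^ b) × (F × M) => (ω.1, g • ω.2)) P P :=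
    (MeasurePreserving.id (PD (p ^ b))).prod (pow_inv' (hA w) k)
  have e1 : (fun x : F × M => g • x) ∘ Fk h b k =
      (Fh h b) ∘ fun ω : Dg (p ^ b) × (F × M) => (ω.1, g • ω.2) := by
    funext ω
    simp only [Function.comp_apply]
    unfold Fk Fh
    rw [smul_smul, smul_smul]
    congr 1
    have h1 := dgh_conj (p := p) (w ^ k) h (-(((p : ℚ_[p]) ^ b) ^ k * (sv p b ω.1 : ℚ_[p])))
    rw [map_pow, ← hg, rt_pow, hw] at h1
    rw [h1]
    congr 2
    have hp : (p : ℚ_[p]) ≠ 0 := by exact_mod_cast (Fact.out : p.Prime).ne_zero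
    have h2 : (p : ℚ_[p]) ^ (-((k : ℤ) * (b : ℤ))) * ((p : ℚ_[p]) ^ b) ^ k = 1 := by
      rw [_root_.zpow_neg, mul_comm (k : ℤ), _root_.zpow_mul, zpow_natCast, zpow_natCast]
      exact inv_mul_cancel₀ (pow_ne_zero _ (pow_ne_zero _ hp))
    calc (p : ℚ_[p]) ^ (-((k : ℤ) * (b : ℤ))) *
        (-(((p : ℚ_[p]) ^ b) ^ k * (sv p b ω.1 : ℚ_[p])))
        = -(((p : ℚ_[p]) ^ (-((k : ℤ) * (b : ℤ))) * ((p : ℚ_[p]) ^ b) ^ k) *
          (sv p b ω.1 : ℚ_[p])) := by ring
      _ = -(sv p b ω.1 : ℚ_[p]) := by rw [h2, one_mul]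
  have e2 : (P.map (Fk h b k)).map (fun x => g • x) = P.map (Fh h b) := by
    rw [Measure.map_map mg mk, e1, ← Measure.map_map mF i2.measurable, i2.map_eq]
  have e3 : (P.map (Fk h b k)).map (fun x => g • x) = (P.map (Fh h b)).map (fun x => g • x) := by
    rw [e2, i1.map_eq]
  have e4 : (fun x : F × M => g⁻¹ • x) ∘ (fun x : F × M => g • x) = id := by
    funext x
    exact inv_smul_smul g x
  have e5 := congrArg (fun m : Measure (F × M) => m.map fun x => g⁻¹ • x) e3
  rw [Measure.map_map mg' mg, Measure.map_map mg' mg, e4, Measure.map_id, Measure.map_id] at e5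
  exact e5

instance instOuter : HasOuterApproxClosed (F × M) := by
  have : TopologicalSpace.MetrizableSpace (F × M) :=
    TopologicalSpace.metrizableSpace_of_t3_secondCountable _
  infer_instance

theorem law_eq_mu (S : Sus Γ F M) {μ : Measure (F × M)} [IsProbabilityMeasure μ]
    (hA : S.AInv μ) (hov : S.OvH μ) (hu : S.Upp μ w) (hb : 1 ≤ b) (hw : rt i j w = b) :
    ((PD (p ^ b)).prod μ).map (Fh h b) = μ := by
  have mF := measurable_Fh (h := h) S hb
  set P := (PD (p ^ b)).prod μ with hP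
  have : IsFiniteMeasure (P.map (Fh h b)) := Measure.isFiniteMeasure_map _ _
  refine ext_of_forall_integral_eq_of_IsFiniteMeasure fun G => ?_
  have h1 : ∀ k : ℕ, ∫ x, G x ∂(P.map (Fh h b)) = ∫ ω, G (Fk h b k ω) ∂P := by
    intro k
    rw [← law_Fk (h := h) S hA hov hu hb hw k]
    exact integral_map (measurable_Fk S hb k).aemeasurable
      G.continuous.measurable.aestronglyMeasurable
  have h2 : Tendsto (fun k : ℕ => ∫ ω, G (Fk h b k ω) ∂P) atTop (𝓝 (∫ ω, G ω.2 ∂P)) := by
    refine tendsto_integral_of_dominated_convergence (fun _ => ‖G‖)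
      (fun k => (G.continuous.measurable.comp (measurable_Fk S hb k)).aestronglyMeasurable)
      (integrable_const _) (fun k => Eventually.of_forall fun ω => G.norm_coe_le_norm _)
      (Eventually.of_forall fun ω => ?_)
    refine (G.continuous.tendsto _).comp ?_
    have h3 : Tendsto (fun k : ℕ => ((-(((p : ℚ_[p]) ^ b) ^ k * (sv p b ω.1 : ℚ_[p]))), ω.2)) atTop
        (𝓝 ((0 : ℚ_[p]), ω.2)) := by
      refine Tendsto.prodMk_nhds ?_ tendsto_const_nhds
      have h4 : ‖(p : ℚ_[p]) ^ b‖ < 1 := by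
        rw [norm_pow, Padic.norm_p]
        have hp : (1 : ℝ) < p := by exact_mod_cast (Fact.out : p.Prime).one_lt
        exact pow_lt_one₀ (by positivity) (inv_lt_one_of_one_lt₀ hp) (by omega)
      have h5 := (tendsto_pow_atTop_nhds_zero_of_norm_lt_one h4).mul_const (sv p b ω.1 : ℚ_[p])
      rw [zero_mul] at h5
      have h6 := h5.neg
      rwa [neg_zero] at h6
    have h4 := ((continuous_EE_smul S h).tendsto ((0 : ℚ_[p]), ω.2)).comp h3
    have e0 : (EE h (0 : ℚ_[p]) : SLn p n) • ω.2 = ω.2 := by simp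
    simp only [e0] at h4
    exact h4
  have h3 : ∫ ω, G ω.2 ∂P = ∫ x, G x ∂μ := by
    have e1 : P.map Prod.snd = μ := measurePreserving_snd.map_eq
    conv_rhs => rw [← e1]
    exact (integral_map measurable_snd.aemeasurable
      G.continuous.measurable.aestronglyMeasurable).symm
  rw [← h3]
  refine tendsto_nhds_unique ?_ h2
  refine tendsto_const_nhds.congr fun k => h1 k

/-- invariance under a limit -/
theorem inv_limit (S : Sus Γ F M) {μ : Measure (F × M)} [IsProbabilityMeasure μ] {i j : Fin n}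
    (h : i ≠ j) {y : ℕ → ℚ_[p]} {x : ℚ_[p]} (hy : Tendsto y atTop (𝓝 x))
    (hi : ∀ N, Inv (EE h (y N) : SLn p n) μ) : Inv (EE h x : SLn p n) μ := by
  refine ⟨S.measurable_smul _, ?_⟩
  have : IsFiniteMeasure (μ.map fun z : F × M => (EE h x : SLn p n) • z) :=
    Measure.isFiniteMeasure_map _ _
  refine ext_of_forall_integral_eq_of_IsFiniteMeasure fun G => ?_
  have h1 : ∀ N, ∫ z, G ((EE h (y N) : SLn p n) • z) ∂μ = ∫ z, G z ∂μ := by
    intro N
    have h2 := (hi N).map_eq
    conv_rhs => rw [← h2]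
    exact (integral_map (hi N).measurable.aemeasurable
      G.continuous.measurable.aestronglyMeasurable).symm
  rw [integral_map (S.measurable_smul _).aemeasurable
    G.continuous.measurable.aestronglyMeasurable]
  have h2 : Tendsto (fun N => ∫ z, G ((EE h (y N) : SLn p n) • z) ∂μ) atTop
      (𝓝 (∫ z, G ((EE h x : SLn p n) • z) ∂μ)) := by
    refine tendsto_integral_of_dominated_convergence (fun _ => ‖G‖)
      (fun k => (G.continuous.measurable.comp (S.measurable_smul _)).aestronglyMeasurable)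
      (integrable_const _) (fun k => Eventually.of_forall fun ω => G.norm_coe_le_norm _)
      (Eventually.of_forall fun z => ?_)
    refine (G.continuous.tendsto _).comp ?_
    have h3 : Continuous fun u : ℚ_[p] => (EE h u : SLn p n) • z :=
      (continuous_EE_smul S h).comp (continuous_id.prodMk continuous_const)
    exact (h3.tendsto x).comp hy
  refine tendsto_nhds_unique h2 ?_
  exact tendsto_const_nhds.congr fun N => (h1 N).symm

theorem uinv_main (S : Sus Γ F M) {μ : Measure (F × M)} [IsProbabilityMeasure μ]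
    (hA : S.AInv μ) (hov : S.OvH μ) (hu : S.Upp μ w) (hr : 0 < rt i j w) :
    UInv p i j μ := by
  intro h x
  obtain ⟨b, hw⟩ := Int.eq_ofNat_of_zero_le hr.le
  have hw' : rt i j w = (b : ℤ) := hw
  have hb : 1 ≤ b := by
    rw [hw'] at hr
    exact_mod_cast hr
  have hp1 : 1 < p := (Fact.out : p.Prime).one_lt
  have hq : 1 < p ^ b := Nat.one_lt_pow (by omega) hp1
  have hg := gs_inv (h := h) S hA hov hu hb hw' ⟨1, hq⟩
  rw [law_eq_mu (h := h) S hA hov hu hb hw'] at hg
  -- `EE 1`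
  have h1 : Inv (EE h (1 : ℚ_[p]) : SLn p n) μ := by
    have h2 := (S.inv_inv (hA w)).mul hg
    have e1 : (dgh p n w)⁻¹ * gs w h b ⟨1, hq⟩ = EE h (1 : ℚ_[p]) := by
      unfold gs
      rw [inv_mul_cancel_left]
      simp
    rwa [e1] at h2
  have hadd : ∀ y z : ℚ_[p], Inv (EE h y : SLn p n) μ → Inv (EE h z : SLn p n) μ →
      Inv (EE h (y + z) : SLn p n) μ := by
    intro y z hy hz
    rw [EE_add]
    exact hy.mul hz
  have hnat : ∀ (y : ℚ_[p]) (m : ℕ), Inv (EE h y : SLn p n) μ →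
      Inv (EE h ((m : ℚ_[p]) * y) : SLn p n) μ := by
    intro y m hy
    rw [EE_nsmul]
    exact pow_inv' hy m
  have hp0 : (p : ℚ_[p]) ≠ 0 := by exact_mod_cast (Fact.out : p.Prime).ne_zero
  -- conjugation
  have hconj : ∀ k : ℕ, Inv (EE h ((p : ℚ_[p]) ^ (-((k : ℤ) * (b : ℤ)))) : SLn p n) μ := by
    intro k
    have h2 := dgh_conj (p := p) (w ^ k) h (1 : ℚ_[p])
    rw [rt_pow, hw', mul_one] at h2
    have e1 : (EE h ((p : ℚ_[p]) ^ (-((k : ℤ) * (b : ℤ)))) : SLn p n) =
        dgh p n (w ^ k) * EE h (1 : ℚ_[p]) * (dgh p n (w ^ k))⁻¹ := by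
      rw [h2, mul_inv_cancel_right]
    rw [e1]
    exact ((hA (w ^ k)).mul h1).mul (S.inv_inv (hA (w ^ k)))
  -- a multiple in `ℤ_p`
  obtain ⟨k, hk⟩ : ∃ k : ℕ, ‖((p : ℚ_[p]) ^ (k * b)) * x‖ ≤ 1 := by
    have h4 : ‖(p : ℚ_[p]) ^ b‖ < 1 := by
      rw [norm_pow, Padic.norm_p]
      have hp : (1 : ℝ) < p := by exact_mod_cast hp1
      exact pow_lt_one₀ (by positivity) (inv_lt_one_of_one_lt₀ hp) (by omega)
    have h5 := ((tendsto_pow_atTop_nhds_zero_of_norm_lt_one h4).mul_const x).norm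
    rw [zero_mul, norm_zero] at h5
    obtain ⟨k, hk⟩ := (h5.eventually (ge_mem_nhds (show (0 : ℝ) < 1 by norm_num))).exists
    refine ⟨k, ?_⟩
    rw [mul_comm k b, pow_mul]
    exact hk
  set z : ℤ_[p] := ⟨((p : ℚ_[p]) ^ (k * b)) * x, hk⟩ with hz
  have hzx : (p : ℚ_[p]) ^ (-((k : ℤ) * (b : ℤ))) * (z : ℚ_[p]) = x := by
    change (p : ℚ_[p]) ^ (-((k : ℤ) * (b : ℤ))) * (((p : ℚ_[p]) ^ (k * b)) * x) = x
    rw [← mul_assoc, _root_.zpow_neg]
    have e1 : (p : ℚ_[p]) ^ ((k : ℤ) * (b : ℤ)) = (p : ℚ_[p]) ^ (k * b) := by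
      rw [← zpow_natCast]
      push_cast
      rfl
    rw [e1, inv_mul_cancel₀ (pow_ne_zero _ hp0), one_mul]
  refine inv_limit S h (y := fun N => (z.appr N : ℚ_[p]) *
    (p : ℚ_[p]) ^ (-((k : ℤ) * (b : ℤ)))) ?_ fun N => hnat _ _ (hconj k)
  rw [← hzx, mul_comm ((p : ℚ_[p]) ^ (-((k : ℤ) * (b : ℤ))))]
  refine Tendsto.mul_const _ ?_
  rw [tendsto_iff_norm_sub_tendsto_zero]
  have h6 : ∀ N, ‖(z.appr N : ℚ_[p]) - (z : ℚ_[p])‖ ≤ ((p : ℝ)⁻¹) ^ N := by
    intro N
    have h7 := PadicInt.appr_spec N z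
    rw [← PadicInt.norm_le_pow_iff_mem_span_pow] at h7
    have e1 : ((z.appr N : ℚ_[p]) - (z : ℚ_[p])) = -((z - (z.appr N : ℤ_[p]) : ℤ_[p]) : ℚ_[p]) := by
      push_cast
      ring
    rw [e1, norm_neg, PadicInt.padic_norm_e_of_padicInt]
    refine h7.trans (le_of_eq ?_)
    rw [_root_.zpow_neg, zpow_natCast, inv_pow]
  refine squeeze_zero (fun N => norm_nonneg _) h6 ?_
  have hp : (1 : ℝ) < p := by exact_mod_cast hp1
  exact tendsto_pow_atTop_nhds_zero_of_lt_one (by positivity) (inv_lt_one_of_one_lt₀ hp)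

end

end Pool.Agent.H53.IV
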