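import Pool.Agent.H53.IV.Inst

/-!
MP_d9606f_gt, full answer, part (S4), invariance principle (helper53).  The system `ZSys` of the
suspension and the independence of the first digit and the position.
-/

set_option autoImplicit false
set_option linter.unusedSectionVars false

open MeasureTheory Filter Matrix
open scoped Topology ENNReal
open Pool.Agent.H73.PZ
open Pool.Agent.H23.DM
open Pool.Agent.H67.LX
open H88.ENT

namespace Pool.Agent.H53.IV

noncomputable section

variable {p : ℕ} [Fact p.Prime] {n : ℕ} {Γ : Subgroup (SLn p n)} {F M : Type}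
    [TopologicalSpace F] [CompactSpace F] [T2Space F] [SecondCountableTopology F]
    [MeasurableSpace F] [BorelSpace F] [MulAction (SLn p n) F]
    [TopologicalSpace M] [CompactSpace M] [T2Space M] [SecondCountableTopology M]
    [MeasurableSpace M] [BorelSpace M] [MulAction Γ M]
    [MulAction (SLn p n) (F × M)] [MulAction (AZ n) (F × M)]
    {w : AZ n} {i j : Fin n} {h : i ≠ j} {b : ℕ}

theorem measurable_Fh (S : Sus Γ F M) (hb : 1 ≤ b) :
    Measurable (Fh h b : Dg (p ^ b) × (F × M) → F × M) := by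
  have h1 : Continuous (Fh h b : Dg (p ^ b) × (F × M) → F × M) := by
    have h2 : Continuous fun ω : Dg (p ^ b) × (F × M) => ((-(sv p b ω.1 : ℚ_[p])), ω.2) :=
      ((continuous_subtype_val.comp ((continuous_sv p hb).comp continuous_fst)).neg).prodMk
        continuous_snd
    exact (continuous_EE_smul S h).comp h2
  exact h1.measurable

theorem dist_le_vn {κ : Type} [Fintype κ] (u v : κ → ℝ) : dist u v ≤ vn fun k => v k - u k := by
  rw [dist_pi_le_iff (vn_nonneg _)]
  intro k
  rw [dist_comm, Real.dist_eq]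
  exact abs_entry_le_vn (fun k => v k - u k) k

theorem vn_le_dist {κ : Type} [Fintype κ] (u v : κ → ℝ) :
    (vn fun k => v k - u k) ≤ (Fintype.card κ + 1) * dist u v := by
  have h1 : (vn fun k => v k - u k) ≤ Fintype.card κ * dist u v := by
    refine vn_le_of_entries dist_nonneg fun k => ?_
    have := dist_le_pi_dist v u k
    rw [Real.dist_eq, dist_comm v u] at this
    exact this
  nlinarith [dist_nonneg (x := u) (y := v)]

/-- the names of the base point of the position -/
def XF (S : Sus Γ F M) {i j : Fin n} (h : i ≠ j) (b : ℕ) (hb : 1 ≤ b) :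
    Filt (Dg (p ^ b) × (F × M)) where
  I l := Cl p n F l
  ft l := @Fintype.ofFinite _ (finite_Cl S.B l)
  xi l ω := cl p n l (Fh h b ω).1
  meas l c := (measurable_fst.comp (measurable_Fh S hb)) (isOpen_fibre S.B l c).measurableSet
  fac l := ⟨fun c => cl p n l (cl_surj (l + 1) c).choose, fun ω => by
    have h1 := (cl_surj (p := p) (n := n) (l + 1) (cl p n (l + 1) (Fh h b ω).1)).choose_spec
    exact cl_anti (Nat.le_succ l) h1.symm⟩

theorem base_law (S : Sus Γ F M) {μ : Measure (F × M)} (hov : S.OvH μ) (g : SLn p n)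
    (l : ℕ) (c : Cl p n F l) :
    μ {x | cl p n l (g • x).1 = c} = S.B.h (cl p n l ⁻¹' {c}) := by
  have h1 : {x : F × M | cl p n l (g • x).1 = c} =
      Prod.fst ⁻¹' ((fun f : F => g • f) ⁻¹' (cl p n l ⁻¹' {c})) := by
    ext x
    simp only [Set.mem_ofPred_eq, Set.mem_preimage, Set.mem_singleton_iff, S.fst_smul]
  have h2 : MeasurableSet (cl p n l ⁻¹' {c}) := (isOpen_fibre S.B l c).measurableSet
  have h3 : MeasurableSet ((fun f : F => g • f) ⁻¹' (cl p n l ⁻¹' {c})) :=
    (S.continuous_smulF g).measurable h2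
  rw [h1, ← Measure.map_apply measurable_fst h3]
  have h4 : μ.map Prod.fst = S.B.h := hov
  rw [h4, (S.B.inv g).measure_preimage h2.nullMeasurableSet]

theorem pre_law (S : Sus Γ F M) (hb : 1 ≤ b) {μ : Measure (F × M)} [IsProbabilityMeasure μ]
    (hov : S.OvH μ) {A : Set (Dg (p ^ b))} (hA : MeasurableSet A) (l : ℕ) (c : Cl p n F l) :
    ((PD (p ^ b)).prod μ) {ω | ω.1 ∈ A ∧ cl p n l (Fh h b ω).1 = c} =
      PD (p ^ b) A * S.B.h (cl p n l ⁻¹' {c}) := by
  have hm : MeasurableSet {ω : Dg (p ^ b) × (F × M) | ω.1 ∈ A ∧ cl p n l (Fh h b ω).1 = c} :=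
    (measurable_fst hA).inter
      ((measurable_fst.comp (measurable_Fh S hb)) (isOpen_fibre S.B l c).measurableSet)
  rw [Measure.prod_apply hm]
  have h1 : ∀ D : Dg (p ^ b), μ (Prod.mk D ⁻¹'
      {ω : Dg (p ^ b) × (F × M) | ω.1 ∈ A ∧ cl p n l (Fh h b ω).1 = c}) =
      A.indicator (fun _ => S.B.h (cl p n l ⁻¹' {c})) D := by
    intro D
    by_cases hD : D ∈ A
    · rw [Set.indicator_of_mem hD, ← base_law S hov (EE h (-(sv p b D : ℚ_[p]))) l c]
      congr 1
      ext x
      simp only [Set.mem_preimage, Set.mem_ofPred_eq, hD, true_and]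
      rfl
    · rw [Set.indicator_of_notMem hD]
      have : Prod.mk D ⁻¹' {ω : Dg (p ^ b) × (F × M) | ω.1 ∈ A ∧ cl p n l (Fh h b ω).1 = c} = ∅ := by
        ext x
        simp [hD]
      rw [this, measure_empty]
  simp only [h1]
  rw [lintegral_indicator hA, setLIntegral_const, mul_comm]

theorem uni_lem (S : Sus Γ F M) (hb : 1 ≤ b) (w : AZ n) {μ : Measure (F × M)}
    [IsProbabilityMeasure μ] (hov : S.OvH μ) (k l : ℕ) (a : Fin k → Fin (p ^ b))
    (c : Cl p n F l) :
    ((PD (p ^ b)).prod μ).real (pre (fun j ω => ((sg w b)^[j] ω).1 0) k ⁻¹' {a} ∩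
      (fun ω : Dg (p ^ b) × (F × M) => cl p n l (Fh h b ω).1) ⁻¹' {c}) =
      ((PD (p ^ b)).prod μ).real
        ((fun ω : Dg (p ^ b) × (F × M) => cl p n l (Fh h b ω).1) ⁻¹' {c}) /
        ((p ^ b : ℕ) : ℝ) ^ k := by
  have e1 : pre (fun j ω => ((sg w b)^[j] ω).1 0) k ⁻¹' {a} ∩ (fun ω : Dg (p ^ b) × (F × M) => cl p n l (Fh h b ω).1) ⁻¹' {c} =
      {ω | ω.1 ∈ {D : Dg (p ^ b) | ∀ i : Fin k, D i = a i} ∧
        cl p n l (Fh h b ω).1 = c} := by
    ext ω
    simp only [Set.mem_inter_iff, Set.mem_preimage, Set.mem_singleton_iff,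
      Set.mem_ofPred_eq]
    refine and_congr ?_ Iff.rfl
    constructor
    · intro h1 i
      rw [← h1]
      exact (sg_iter_zero _ _).symm
    · intro h1
      funext i
      change ((sg w b)^[(i : ℕ)] ω).1 0 = _
      rw [sg_iter_zero]
      exact h1 i
  have e2 : (fun ω : Dg (p ^ b) × (F × M) => cl p n l (Fh h b ω).1) ⁻¹' {c} =
      {ω | ω.1 ∈ (Set.univ : Set (Dg (p ^ b))) ∧ cl p n l (Fh h b ω).1 = c} := by
    ext ω
    simp only [Set.mem_univ, true_and]
    rfl
  have m1 : MeasurableSet {D : Dg (p ^ b) | ∀ i : Fin k, D i = a i} := by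
    have : {D : Dg (p ^ b) | ∀ i : Fin k, D i = a i} =
        ⋂ i : Fin k, (fun D : Dg (p ^ b) => D i) ⁻¹' {a i} := by
      ext D
      simp
    rw [this]
    exact MeasurableSet.iInter fun i => (measurable_pi_apply _) (measurableSet_singleton _)
  rw [e1, e2]
  unfold Measure.real
  rw [pre_law S hb hov m1, pre_law S hb hov MeasurableSet.univ, measure_pre, measure_univ,
    one_mul, ENNReal.toReal_mul, ENNReal.toReal_pow, ENNReal.toReal_inv,
    ENNReal.toReal_natCast, inv_pow, mul_comm, div_eq_mul_inv]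

theorem indep_conc (S : Sus Γ F M) {μ : Measure (F × M)} [IsProbabilityMeasure μ]
    (hA : S.AInv μ) (hov : S.OvH μ) (hu : S.Upp μ w) (hb : 1 ≤ b) (hw : rt i j w = b)
    {Φ : (S.V.κ → ℝ) → ℝ} (hΦ : LipschitzWith 1 Φ) {t : ℝ}
    (ht : ((PD (p ^ b)).prod μ) {ω | Φ (fun k => S.V.ψ k (Fh h b ω).2) = t} = 0) (l : ℕ)
    (c : Cl p n F l) (s : Fin (p ^ b)) :
    ((PD (p ^ b)).prod μ).real ({ω | ω.1 0 = s} ∩ ({ω | cl p n l (Fh h b ω).1 = c} ∩
      {ω | t < Φ (fun k => S.V.ψ k (Fh h b ω).2)})) =
    ((PD (p ^ b)).prod μ).real ({ω | cl p n l (Fh h b ω).1 = c} ∩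
      {ω | t < Φ (fun k => S.V.ψ k (Fh h b ω).2)}) / ((p ^ b : ℕ) : ℝ) := by
  obtain ⟨B, hB1, hB⟩ := bdd_psi S
  obtain ⟨K, hK1, hK⟩ := near_raw (h := h) S hb hw
  obtain ⟨K0, hK01, hK0⟩ := EE_bdd S h
  have hK00 : 0 ≤ K0 := by linarith
  have hKK : 0 ≤ K := by linarith
  set cc : ℝ := Fintype.card S.V.κ + 1 with hcc
  have hcc1 : 1 ≤ cc := by
    have : (0 : ℝ) ≤ Fintype.card S.V.κ := Nat.cast_nonneg _
    linarith
  have hcc0 : 0 ≤ cc := by linarith
  have mF := measurable_Fh (h := h) S hb
  let E : ZSys (Dg (p ^ b) × (F × M)) ((PD (p ^ b)).prod μ) (p ^ b) S.V.κ :=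
    { σ := sg w b
      mp := (mp_shf (p ^ b)).prod (hA w)
      X := XF S h b hb
      S0 := fun ω => ω.1 0
      mS0 := FM.of_measurable ((measurable_pi_apply 0).comp measurable_fst)
      ada := fun l => by
        obtain ⟨l', hl'⟩ := ada_cl (p := p) (w := w) (h := h) (b := b) (F := F) l
        refine ⟨l', fun ω ω' h1 h2 => ?_⟩
        change cl p n l (Fh h b (sg w b ω)).1 = cl p n l (Fh h b (sg w b ω')).1
        rw [Fh_sg hb hw, Fh_sg hb hw, S.fst_smul, S.fst_smul, h1]
        exact hl' _ _ _ h2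
      uni := fun k l a c => uni_lem (h := h) S hb w hov k l a c
      ψ := fun ω k => S.V.ψ k (Fh h b ω).2
      mψ := fun k => (S.V.ψ_cont k).measurable.comp (measurable_snd.comp mF)
      B := B
      bψ := fun ω k => hB k _
      K := 2 * K ^ 3 * cc ^ 2
      hK := by
        have h1 : 1 ≤ K ^ 3 := one_le_pow₀ hK1
        have h2 : 1 ≤ cc ^ 2 := one_le_pow₀ hcc1
        nlinarith
      a := fun T ω => cc * K0 ^ 2 * fn (S.C (dgh p n w ^ T) ω.2)
      ma := fun T => ((measurable_fnC S _).comp measurable_snd).const_mul _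
      near := fun T => by
        obtain ⟨l, hl⟩ := hK T
        refine ⟨l, fun ω ω' h1 h2 => ?_⟩
        have h1' : ∀ t < T, ω.1 t = ω'.1 t := fun t ht => by
          have := h1 t ht
          rwa [sg_iter_zero, sg_iter_zero] at this
        obtain ⟨a1, a2⟩ := hl ω ω' h1' h2
        set d0 := dist (fun k => S.V.ψ k (Fh h b ω).2) (fun k => S.V.ψ k (Fh h b ω').2) with hd0
        have hd00 : 0 ≤ d0 := dist_nonneg
        set v := (sg w b)^[T] ω with hv
        set v' := (sg w b)^[T] ω' with hv'
        have b1 : dist (fun k => S.V.ψ k (Fh h b v).2) (fun k => S.V.ψ k (Fh h b v').2) ≤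
          vn (zz S h b v v') := dist_le_vn _ _
        have b2 : vn (zz S h b ω ω') ≤ cc * d0 := vn_le_dist _ _
        have bn := vn_nonneg (zz S h b ω ω')
        have hX : 1 ≤ 2 * K ^ 3 * cc ^ 2 := by
          have h1 : 1 ≤ K ^ 3 := one_le_pow₀ hK1
          have h2 : 1 ≤ cc ^ 2 := one_le_pow₀ hcc1
          nlinarith
        constructor
        · rcases Nat.eq_zero_or_pos T with h0 | h0
          · subst h0
            simp only [pow_zero, one_mul]
            exact le_rfl
          · refine b1.trans (a1.trans ?_)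
            have c1 : K ^ T * cc ≤ (2 * K ^ 3 * cc ^ 2) ^ T := by
              have c2 : cc ≤ cc ^ T := le_self_pow₀ hcc1 (by omega)
              have c3 : (K * cc) ^ T ≤ (2 * K ^ 3 * cc ^ 2) ^ T := by
                apply pow_le_pow_left₀ (by positivity)
                have c4 : K ≤ K ^ 3 := le_self_pow₀ hK1 (by omega)
                have c5 : cc ≤ cc ^ 2 := le_self_pow₀ hcc1 (by omega)
                have c6 : K * cc ≤ K ^ 3 * cc ^ 2 := mul_le_mul c4 c5 hcc0 (by positivity)
                have c7 : 0 ≤ K ^ 3 * cc ^ 2 := by positivity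
                linarith
              calc K ^ T * cc ≤ K ^ T * cc ^ T := mul_le_mul_of_nonneg_left c2 (by positivity)
                _ = (K * cc) ^ T := (mul_pow _ _ _).symm
                _ ≤ _ := c3
            calc K ^ T * vn (zz S h b ω ω') ≤ K ^ T * (cc * d0) :=
                  mul_le_mul_of_nonneg_left b2 (by positivity)
              _ = K ^ T * cc * d0 := by ring
              _ ≤ (2 * K ^ 3 * cc ^ 2) ^ T * d0 := mul_le_mul_of_nonneg_right c1 hd00
        · intro hT
          have e1 : fn (S.C (tau w h b T ω.1) (Fh h b ω)) ≤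
              K0 ^ 2 * fn (S.C (dgh p n w ^ T) ω.2) := by
            rw [tau_eq hb hw, C_mul, C_mul]
            have f1 : (EE h (sv p b ω.1 : ℚ_[p]) : SLn p n) • Fh h b ω = ω.2 := by
              unfold Fh
              rw [smul_smul, ← EE_add, add_neg_cancel]
              simp
            rw [f1]
            have g1 := hK0 (sv p b ω.1) (Fh h b ω)
            have g2 := hK0 (-(sv p b (shf^[T] ω.1))) (dgh p n w ^ T • ω.2)
            rw [PadicInt.coe_neg] at g2
            have g3 := fn_nonneg (S.C (dgh p n w ^ T) ω.2)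
            calc _ ≤ fn (S.C (EE h (-(sv p b (shf^[T] ω.1) : ℚ_[p]))) (dgh p n w ^ T • ω.2) *
                  S.C (dgh p n w ^ T) ω.2) * fn (S.C (EE h (sv p b ω.1 : ℚ_[p])) (Fh h b ω)) :=
                  fn_mul_le _ _
              _ ≤ (K0 * fn (S.C (dgh p n w ^ T) ω.2)) * K0 := by
                  apply mul_le_mul _ g1 (fn_nonneg _) (by positivity)
                  exact (fn_mul_le _ _).trans (mul_le_mul_of_nonneg_right g2 g3)
              _ = _ := by ring
          have e2 : vn (zz S h b v v') ≤ vn (zz S h b v v' -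
              S.C (tau w h b T ω.1) (Fh h b ω) *ᵥ zz S h b ω ω') +
              vn (S.C (tau w h b T ω.1) (Fh h b ω) *ᵥ zz S h b ω ω') := by
            have := vn_add_le (zz S h b v v' -
              S.C (tau w h b T ω.1) (Fh h b ω) *ᵥ zz S h b ω ω')
              (S.C (tau w h b T ω.1) (Fh h b ω) *ᵥ zz S h b ω ω')
            rwa [sub_add_cancel] at this
          have e3 : vn (S.C (tau w h b T ω.1) (Fh h b ω) *ᵥ zz S h b ω ω') ≤
              K0 ^ 2 * fn (S.C (dgh p n w ^ T) ω.2) * (cc * d0) :=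
            (vn_mulVec_le _ _).trans (mul_le_mul e1 b2 bn
              (mul_nonneg (by positivity) (fn_nonneg _)))
          have e4 : ((T : ℝ) + 1) * K ^ (2 * T + 1) * vn (zz S h b ω ω') ^ 2 ≤
              (2 * K ^ 3 * cc ^ 2) ^ T * d0 ^ 2 := by
            have f1 : (T : ℝ) + 1 ≤ 2 ^ T := by
              have : T + 1 ≤ 2 ^ T := Nat.succ_le_of_lt Nat.lt_two_pow_self
              exact_mod_cast this
            have f2 : K ^ (2 * T + 1) ≤ (K ^ 3) ^ T := by
              rw [← pow_mul]
              exact pow_le_pow_right₀ hK1 (by omega)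
            have f3 : vn (zz S h b ω ω') ^ 2 ≤ (cc ^ 2) ^ T * d0 ^ 2 := by
              calc vn (zz S h b ω ω') ^ 2 ≤ (cc * d0) ^ 2 := pow_le_pow_left₀ bn b2 2
                _ = cc ^ 2 * d0 ^ 2 := mul_pow _ _ _
                _ ≤ (cc ^ 2) ^ T * d0 ^ 2 := by
                  apply mul_le_mul_of_nonneg_right _ (by positivity)
                  exact le_self_pow₀ (one_le_pow₀ hcc1) (by omega)
            calc ((T : ℝ) + 1) * K ^ (2 * T + 1) * vn (zz S h b ω ω') ^ 2
                ≤ (2 ^ T * (K ^ 3) ^ T) * ((cc ^ 2) ^ T * d0 ^ 2) := by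
                  apply mul_le_mul (mul_le_mul f1 f2 (by positivity) (by positivity)) f3
                    (by positivity) (by positivity)
              _ = (2 * K ^ 3 * cc ^ 2) ^ T * d0 ^ 2 := by
                  rw [mul_pow, mul_pow]
                  ring
          calc _ ≤ vn (zz S h b v v') := b1
            _ ≤ _ := e2
            _ ≤ (2 * K ^ 3 * cc ^ 2) ^ T * d0 ^ 2 +
                K0 ^ 2 * fn (S.C (dgh p n w ^ T) ω.2) * (cc * d0) :=
              add_le_add (a2.trans e4) e3
            _ = _ := by ring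
      slow := fun ε hε => by
        have h1 := hu (ε / 2) (by positivity)
        have h2 : Tendsto (fun t : ℕ => Real.exp (ε / 2 * t)) atTop atTop := by
          apply Real.tendsto_exp_atTop.comp
          exact tendsto_natCast_atTop_atTop.const_mul_atTop (by positivity)
        have h3 : Tendsto (fun t : ℕ =>
            (μ {x | ε / 2 * t < S.L (dgh p n w ^ t) x}).toReal) atTop (𝓝 0) := by
          have := (ENNReal.tendsto_toReal ENNReal.zero_ne_top).comp h1
          rw [ENNReal.toReal_zero] at this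
          exact this
        refine squeeze_zero' (Eventually.of_forall fun T => measureReal_nonneg) ?_ h3
        filter_upwards [h2.eventually_ge_atTop (cc * K0 ^ 2)] with T hT
        have h4 : {ω : Dg (p ^ b) × (F × M) |
            Real.exp (ε * T) < cc * K0 ^ 2 * fn (S.C (dgh p n w ^ T) ω.2)} ⊆
            Set.univ ×ˢ {x | ε / 2 * T < S.L (dgh p n w ^ T) x} := by
          intro ω hω
          refine ⟨Set.mem_univ _, ?_⟩
          have h5 : Real.exp (ε * T) < cc * K0 ^ 2 * fn (S.C (dgh p n w ^ T) ω.2) := hω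
          have h6 : Real.exp (ε * T) = Real.exp (ε / 2 * T) * Real.exp (ε / 2 * T) := by
            rw [← Real.exp_add]
            congr 1
            ring
          have h7 := fn_nonneg (S.C (dgh p n w ^ T) ω.2)
          have h8 : Real.exp (ε / 2 * T) < fn (S.C (dgh p n w ^ T) ω.2) := by
            by_contra hcon
            push Not at hcon
            have h9 : cc * K0 ^ 2 * fn (S.C (dgh p n w ^ T) ω.2) ≤
                Real.exp (ε / 2 * T) * Real.exp (ε / 2 * T) :=
              mul_le_mul hT hcon h7 (Real.exp_pos _).le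
            linarith
          change ε / 2 * T < Real.log (fn (S.C (dgh p n w ^ T) ω.2))
          rw [Real.lt_log_iff_exp_lt (lt_trans (Real.exp_pos _) h8)]
          exact h8
        have h5 : ((PD (p ^ b)).prod μ) {ω : Dg (p ^ b) × (F × M) |
            Real.exp (ε * T) < cc * K0 ^ 2 * fn (S.C (dgh p n w ^ T) ω.2)} ≤
            μ {x | ε / 2 * T < S.L (dgh p n w ^ T) x} := by
          refine (measure_mono h4).trans ?_
          rw [Measure.prod_prod, measure_univ, one_mul]
        exact ENNReal.toReal_mono (measure_ne_top _ _) h5 }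
  exact E.indep hΦ ht l c s

end

end Pool.Agent.H53.IV
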